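import Pool.Agent.Helper61.SEL.Exk
import Pool.Agent.Helper66.NJ.Cnt
import Pool.Agent.Helper62.DGR.Emb

/-! # EXHAUSTION [EXH] for the volumes of all degrees

`exhKO` : if the deficit `volKO - HK` of the window `c` is at least `δ` on all events, then the K-hull of the same window
measured at any resolution `ρ > 1 - δ` has the same codimension: `u(1, c) ≤ u(ρ, c)`, where
`u(ρ, c) = ρ (N - volKO (s.trn ρ) R (c / ρ))`;
`exhKO_full` : hence, if the codimension is lost at resolutions `ρ < 1` arbitrarily close to `1` (top exponent `1`) and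
the deficit is the same on all events, the deficit is `0`. -/

set_option autoImplicit false
set_option linter.unusedSectionVars false

namespace Pool.Agent.Helper61.SEL

open Finset Filter Topology Matrix Pool.Agent.Helper69.RK Pool.Agent.Helper31.EC Pool.Agent.Helper31.EC.Sp
open Pool.Agent.Helper40.EL Pool.Agent.Helper89.LX Pool.Agent.Helper3.LF Pool.Agent.Helper84.MT Pool.Agent.Helper89.RAT
open Pool.Agent.Helper89.RAK (KC Lit dom_z0 slf_K optK_dom)
open Pool.Agent.Helper87.NSL (cndR KnS)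
open Pool.Agent.Helper29.MX (Rsl KZ KLb KAd KOp volK volKO HK rbot volK_of_opt volK_eq volKO_le_volK volKO_le_M volKO_eq)
open Pool.Agent.Helper49.KL (LF)
open Pool.Agent.Helper66.NJ (exists_zFD gG gG_kn)
open Pool.Agent.Helper29.MX (volK_le_of)
open Pool.Agent.Helper62.DGR (exF exF_Adf exF_vol)
open Pool.Agent.Helper36.AM (STu)

noncomputable section

variable {S : Sp} {M d D g : ℕ} {E : ℕ → ℕ} {ι : Type} [Finite ι]

/-- literal optimal forms of all degrees and resolutions -/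
theorem exists_LF (s : MSys S M E ι) (R : Rsl S) (D : ℕ) (c : ℝ) :
    ∃ L : LF S (Mon M D), (∀ᶠ k in UF, R k ⊓ (S.F k).Z ≤ L.Z k) ∧ KOp s R D c L.fd := by
  obtain ⟨Z, G, h1, h2, h3⟩ := exists_zFD (gaq s.Q D) (cndR s R c) R
  exact ⟨⟨Z, fun k => gG (Z k) (G k), fun k ω ω' a b c d => gG_kn _ _ ω ω' a b c d⟩, h1, h3⟩

/-- volumes decrease with the degree -/
theorem volK_deg (s : MSys S M E ι) (R : Rsl S) (c : ℝ) {D D' : ℕ} (h : D ≤ D') : volK s R D' c ≤ volK s R D c := by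
  obtain ⟨x, hx⟩ := (gaq s.Q D).exists_optfK (KZ R) (cndR s R c)
  have hx' : KOp s R D c x := hx
  rw [volK_of_opt hx']
  exact (volK_le_of (x := fun k => exF h (x k)) ⟨exF_Adf s.Q h hx.1.1, hx.1.2⟩).trans (exF_vol s.Q h hx.1.1)

/-- lower bounds of the volumes of large degrees -/
theorem le_volKO {s : MSys S M E ι} {R : Rsl S} {c v : ℝ} (D₁ : ℕ) (h : ∀ D, D₁ ≤ D → v ≤ volK s R D c) :
    v ≤ volKO s R c :=
  le_ciInf fun D => (h (max D D₁) (le_max_right _ _)).trans (volK_deg s R c (le_max_left D D₁))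

/-- **[EXH]**: deficit at least `δ` on all events, then resolutions `ρ > 1 - δ` have the same codimension -/
theorem exhKO (hST : STu d) {s : MSys S (d + 1) (lin g) ι} {R : Rsl S} (hlit : Lit R s.Q) {c : ℝ} (h0 : 0 ≤ c)
    (h1 : c < 1) {δ : ℝ} (hδ : ∀ (A : ∀ k, (S.F k).Ω → Prop) (hA : 0 < ul (S.pr A)),
      δ ≤ volKO (s.im (Pj.id S) A hA) R c - HK (s.im (Pj.id S) A hA) R c)
    {ρ : ℝ} (hρ : 1 - δ < ρ) (a : 0 < ρ) (b : ρ ≤ 1) :
    (d + 1 : ℕ) - volKO s R c ≤ ρ * ((d + 1 : ℕ) - volKO (s.trn ρ a b) R (c / ρ)) := by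
  obtain ⟨D₁, hD₁⟩ := hST g
  have hge : ((d + 1 : ℕ) : ℝ) - ρ * ((d + 1 : ℕ) - volKO (s.trn ρ a b) R (c / ρ)) ≤ volKO s R c := by
    refine le_volKO (max D₁ 1) fun D hD => ?_
    have hD1 : D₁ ≤ D := (le_max_left _ _).trans hD
    have hD0 : 1 ≤ D := (le_max_right _ _).trans hD
    obtain ⟨L, -, hL⟩ := exists_LF s R D c
    have hG : GrLe s.Q L.fd (1 - δ) := exhK_typ (hD₁ D hD1) hlit hD0 h0 h1 hL.1 fun A hA => by
      have h2 := hδ A hA
      have h3 := volKO_le_volK (s.im (Pj.id S) A hA) R D c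
      linarith
    have h4 := trnK_ge hlit a b hρ hL hG
    have h5 := volKO_le_volK (S := S.chg S.tr ρ a) (s.trn ρ a b) R D (c / ρ)
    have h6 : ρ * (((d + 1 : ℕ) : ℝ) - volK (s.trn ρ a b) R D (c / ρ)) ≤
        ρ * ((d + 1 : ℕ) - volKO (s.trn ρ a b) R (c / ρ)) := mul_le_mul_of_nonneg_left (by linarith) a.le
    linarith
  linarith

/-- **[EXH]**: top exponent `1` and the same deficit on all events: no deficit -/
theorem exhKO_full (hST : STu d) {s : MSys S (d + 1) (lin g) ι} {R : Rsl S} (hlit : Lit R s.Q) {c : ℝ} (h0 : 0 ≤ c)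
    (h1 : c < 1) (hrob : ∀ (A : ∀ k, (S.F k).Ω → Prop) (hA : 0 < ul (S.pr A)),
      volKO s R c - HK s R c ≤ volKO (s.im (Pj.id S) A hA) R c - HK (s.im (Pj.id S) A hA) R c)
    (hu : ∀ η : ℝ, 0 < η → ∃ ρ : ℝ, 1 - η < ρ ∧ ∃ (a : 0 < ρ) (b : ρ ≤ 1),
      ρ * ((d + 1 : ℕ) - volKO (s.trn ρ a b) R (c / ρ)) < (d + 1 : ℕ) - volKO s R c) :
    volKO s R c ≤ HK s R c := by
  by_contra hcon
  push Not at hcon
  obtain ⟨ρ, h2, a, b, h3⟩ := hu (volKO s R c - HK s R c) (by linarith)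
  have h4 := exhKO hST hlit h0 h1 hrob h2 a b
  linarith

/-- **[EXH] on an event**, one degree: if the codimension is larger at the resolution `1` than at the resolution `e`, there
is an event with an optimal form whose volume is at most `H (Q_1 | l) + δ`, for every K-label `l` of the window,
`δ > 1 - e` -/
theorem exh_ev (hST : ∀ r, STm D d (lin g) (Fin r)) {s : MSys S (d + 1) (lin g) ι} {R : Rsl S} (hlit : Lit R s.Q)
    (hD : 1 ≤ D) {c : ℝ} (h0 : 0 ≤ c) (h1 : c < 1) {e δ : ℝ} (he : 0 < e) (he1 : e ≤ 1) (hδ : 1 - e < δ)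
    (h : e * ((d + 1 : ℕ) - volK (s.trn e he he1) R D (c / e)) < (d + 1 : ℕ) - volK s R D c) :
    ∃ (A : ∀ k, (S.F k).Ω → Prop) (hA : 0 < ul (S.pr A)) (x : ∀ k, FD ((Sp.im (Pj.id S) A).F k) (Mon (d + 1) D)),
      KOp (s.im (Pj.id S) A hA) R D c x ∧ ∀ l, KLb (s.im (Pj.id S) A hA) R c l →
        vol (s.im (Pj.id S) A hA).Q D x < H (up1 l ((s.im (Pj.id S) A hA).Q.dg 1)) + δ := by
  by_contra hcon
  obtain ⟨L, -, hL⟩ := exists_LF s R D c
  have hG : GrLe s.Q L.fd (1 - δ) := exhK_typ hST hlit hD h0 h1 hL.1 fun A hA => by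
    by_contra h2
    push Not at h2
    obtain ⟨x, hx⟩ := (gaq (s.im (Pj.id S) A hA).Q D).exists_optfK
      (KZ (S := Sp.im (Pj.id S) A) R) (cndR (s.im (Pj.id S) A hA) R c)
    refine hcon ⟨A, hA, x, hx, fun l hl => ?_⟩
    have h3 : volK (s.im (Pj.id S) A hA) R D c = vol (s.im (Pj.id S) A hA).Q D x := volK_of_opt hx
    have h4 : HK (s.im (Pj.id S) A hA) R c ≤ H (up1 l ((s.im (Pj.id S) A hA).Q.dg 1)) := by
      refine csInf_le ⟨0, ?_⟩ ⟨l, hl, rfl⟩
      rintro v ⟨l', -, rfl⟩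
      exact H_nonneg _
    linarith
  have h4 := trnK_ge hlit he he1 (show 1 - δ < e by linarith) hL hG
  linarith

/-- **[EXH] on an event**, all degrees -/
theorem exhO_ev (hST : ∀ r, STm D d (lin g) (Fin r)) {s : MSys S (d + 1) (lin g) ι} {R : Rsl S} (hlit : Lit R s.Q)
    (hD : 1 ≤ D) {c : ℝ} (h0 : 0 ≤ c) (h1 : c < 1) (hdeg : volK s R D c ≤ volKO s R c) {e δ : ℝ} (he : 0 < e)
    (he1 : e ≤ 1) (hδ : 1 - e < δ)
    (h : e * ((d + 1 : ℕ) - volKO (s.trn e he he1) R (c / e)) < (d + 1 : ℕ) - volKO s R c) :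
    ∃ (A : ∀ k, (S.F k).Ω → Prop) (hA : 0 < ul (S.pr A)) (x : ∀ k, FD ((Sp.im (Pj.id S) A).F k) (Mon (d + 1) D)),
      KOp (s.im (Pj.id S) A hA) R D c x ∧ ∀ l, KLb (s.im (Pj.id S) A hA) R c l →
        vol (s.im (Pj.id S) A hA).Q D x < H (up1 l ((s.im (Pj.id S) A hA).Q.dg 1)) + δ := by
  refine exh_ev hST hlit hD h0 h1 he he1 hδ ?_
  have h5 := volKO_le_volK (S := S.chg S.tr e he) (s.trn e he he1) R D (c / e)
  have h6 : e * (((d + 1 : ℕ) : ℝ) - volK (s.trn e he he1) R D (c / e)) ≤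
      e * ((d + 1 : ℕ) - volKO (s.trn e he he1) R (c / e)) := mul_le_mul_of_nonneg_left (by linarith) he.le
  linarith

end

end Pool.Agent.Helper61.SEL
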