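import Pool.Agent.Helper61.SEL.Tre
import Pool.Agent.Helper89.RAD.Sd
import Pool.Agent.Helper29.MX.Bas
import Pool.Agent.Helper49.KL.Rig

/-! # EXHAUSTION for pairs `(s, R)` (K-labels; `R = ⊥`: type-labels)

`defK_le` : over EVERY K-label of the window `c`, `vol ≤ 1 - zx_j + H (Q_1)`;
`exhK_typ` : if the deficit `volK - HK` is at least `δ` on all events, the gradients of the literal optimal form are
typically at most `2 ^ ((1 - δ + ε) n)`;
`trnK_ge` : above the top exponent, the hull measured at the resolution `ρ` is the same;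
`exhK` : if the hull loses codimension at all resolutions `ρ < 1`, the deficit is `0`. -/

set_option autoImplicit false
set_option linter.unusedSectionVars false

namespace Pool.Agent.Helper61.SEL

open Finset Filter Topology Matrix Pool.Agent.Helper69.RK Pool.Agent.Helper31.EC Pool.Agent.Helper31.EC.Sp
open Pool.Agent.Helper40.EL Pool.Agent.Helper89.LX Pool.Agent.Helper3.LF Pool.Agent.Helper84.MT Pool.Agent.Helper89.RAT
open Pool.Agent.Helper95.LF (PdM)
open Pool.Agent.Helper52.SL (tnF tnL untL nul_trn)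
open Pool.Agent.Helper7.RD (volC volCO volC_le_of volC_eq)
open Pool.Agent.Helper89.RAK (KC Lit dom_z0 slf_K optK_dom)
open Pool.Agent.Helper89.RAD (cnA DMD cnA_dp dp idPD_win)
open Pool.Agent.Helper87.NSL (cndR KnS)
open Pool.Agent.Helper29.MX (Rsl KZ KLb KAd KOp volK volKO HK rbot volK_of_opt volK_eq)
open Pool.Agent.Helper49.KL (LF)

noncomputable section

variable {S : Sp} {M d D g : ℕ} {E : ℕ → ℕ} {ι : Type} [Finite ι]

/-- optimal K-forms dominate their derivatives -/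
theorem dmZ_K {s : MSys S M E ι} {R : Rsl S} (hlit : Lit R s.Q) {c : ℝ} {x : ∀ k, FD (S.F k) (Mon M D)}
    (hx : KOp s R D c x) : DmZ s.Q x := fun z ε hε =>
  dom_z0 s.Q z hx.1.1 (fun k => hlit.cell 1 k) (slf_K (gaq s.Q D) hx) ε hε

/-- THE DEFICIT of a pair, over every K-label of the window, is at most one minus the mean exponent of the gradient -/
theorem defK_le {s : MSys S (d + 1) (lin g) ι} {R : Rsl S} (hST : ∀ r, STm D d (lin g) (Fin r)) (hlit : Lit R s.Q)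
    (hD : 1 ≤ D) {c : ℝ} (h0 : 0 ≤ c) (h1 : c < 1) {x : ∀ k, FD (S.F k) (Mon (d + 1) D)} (hx : KOp s R D c x)
    (j : Fin (d + 1)) {l : Lab S} (hl : KLb s R c l) : vol s.Q D x ≤ 1 - zx s.Q j x + H (up1 l (s.Q.dg 1)) := by
  have hl' : DMD s (dp R) R c l := by
    refine ⟨?_, hl.2⟩
    show l.DMf (cnA s (dp R) c)
    rw [cnA_dp]
    exact hl.1
  have hx' : (gaq s.Q D).OptfK (KC R) (cnA s (dp R) c) x := by
    rw [cnA_dp]
    exact hx
  have h2 := idPD_win hST hlit j (dropV s.Q j) (fun _ _ _ => rfl) hD h0 h1 hl' hx'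
  have h3 : H (up1 l ((dropV s.Q j).dg 1)) ≤ H (up1 l (s.Q.dg 1)) := H_mono (up1_mono _ (dropV_le s.Q j 1))
  linarith

theorem KLb_triv (s : MSys S M E ι) (R : Rsl S) (c : ℝ) : KLb s R c (fun k => FLab.triv (S.F k)) :=
  ⟨Lab.DMf_triv _, (KZ R).ev_triv⟩

/-- the same for the numbers `volK`, `HK` -/
theorem defHK_le {s : MSys S (d + 1) (lin g) ι} {R : Rsl S} (hST : ∀ r, STm D d (lin g) (Fin r)) (hlit : Lit R s.Q)
    (hD : 1 ≤ D) {c : ℝ} (h0 : 0 ≤ c) (h1 : c < 1) {x : ∀ k, FD (S.F k) (Mon (d + 1) D)} (hx : KOp s R D c x)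
    (j : Fin (d + 1)) : volK s R D c - HK s R c ≤ 1 - zx s.Q j x := by
  have h2 : volK s R D c - (1 - zx s.Q j x) ≤ HK s R c := by
    refine le_csInf ⟨_, _, KLb_triv s R c, rfl⟩ ?_
    rintro v ⟨l, hl, rfl⟩
    have h3 := defK_le hST hlit hD h0 h1 hx j hl
    have h4 : volK s R D c = vol s.Q D x := volK_of_opt hx
    linarith
  linarith

/-- points of positive mass of a restriction lie in the event -/
theorem im_ev {F : FSp} (E : F.Ω → Prop) (hE : F.pb E ≠ 0) {p : FPj F F} (hp : p.π = fun ω => ω) {ω : F.Ω}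
    (h : (FSp.im p E).μ ω ≠ 0) : E ω := by
  by_contra hc
  apply h
  refine (push_ind p.π (F.restμ E) ω).trans ?_
  apply Finset.sum_eq_zero
  intro ω' _
  by_cases h1 : p.π ω' = ω
  · have h2 : F.restμ E ω' = 0 := by
      by_contra h3
      rw [hp] at h1
      exact hc (h1 ▸ (F.rest_supp E ω' h3).2 hE)
    rw [h2, mul_zero]
  · rw [e1_ind_neg h1, zero_mul]

/-- **EXHAUSTION, typical version**: `L` a literal optimal form of the window `c`; if the deficit is at least `δ` on all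
events, the gradients are typically at most `2 ^ ((1 - δ + ε) n)` -/
theorem exhK_typ {s : MSys S (d + 1) (lin g) ι} {R : Rsl S} (hST : ∀ r, STm D d (lin g) (Fin r)) (hlit : Lit R s.Q)
    (hD : 1 ≤ D) {c : ℝ} (h0 : 0 ≤ c) (h1 : c < 1) {L : LF S (Mon (d + 1) D)} (hL : KAd s R D c L.fd) {δ : ℝ}
    (hδ : ∀ (A : ∀ k, (S.F k).Ω → Prop) (hA : 0 < ul (S.pr A)),
      δ ≤ volK (s.im (Pj.id S) A hA) R D c - HK (s.im (Pj.id S) A hA) R c) : GrLe s.Q L.fd (1 - δ) := by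
  intro z ε hε
  set G : ∀ k, (S.F k).Ω → Prop := fun k ω => Jz s.Q z k ω (L.G k ω) ≤ 2 ^ (2 * (1 - δ + ε) * (S.F k).n) with hG
  have hgoal : Typ G → Typ (S := (lb L.fd).sp) (fun k (ω : (L.fd k).l.T.Ω) =>
      Jz s.Q z k ((L.fd k).l.p.π ω) ((L.fd k).g ω) ≤ 2 ^ (2 * (1 - δ + ε) * (S.F k).n)) := fun h => h
  apply hgoal
  by_contra hcon
  have h2 : 0 < ul (S.pr fun k ω => ¬ G k ω) := by
    rw [ul_pr_compl]
    have h3 : ul (S.pr G) ≤ 1 := ul_le_const (Sp.UB_pr G) (Eventually.of_forall fun k => Sp.pr_le_one G k)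
    rcases h3.lt_or_eq with h4 | h4
    · linarith
    · exfalso
      apply hcon
      rw [Sp.Typ_iff, ← h4]
      exact ul_tendsto (Sp.UB_pr G)
  set s' := s.im (Pj.id S) (fun k ω => ¬ G k ω) h2 with hs'
  have hcnd : cndR s' R c = fun i => (cndR s R c i).im (Pj.id S) (fun k ω => ¬ G k ω) :=
    funext fun i => by cases i <;> rfl
  have h3 : (gaq s'.Q D).AdfK (KZ (S := Sp.im (Pj.id S) fun k ω => ¬ G k ω) R) (cndR s' R c)
      (L.im (Pj.id S) fun k ω => ¬ G k ω).fd := by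
    rw [hcnd]
    have h4 := LF.im_adfK (Φ := gaq s.Q D) (p := Pj.id S) (E := fun k ω => ¬ G k ω) hL h2
    rw [← gaq_im] at h4
    exact h4
  obtain ⟨y, hy⟩ := (gaq s'.Q D).exists_optfK (KZ (S := Sp.im (Pj.id S) fun k ω => ¬ G k ω) R) (cndR s' R c)
  have h5 := defHK_le (s := s') hST (fun k => hlit k) hD h0 h1 hy z
  have h6 := (optK_dom hy h3).zx_le hy.1.1 h3.1 z
  have h7 : 1 - δ + ε ≤ zx s'.Q z (L.im (Pj.id S) fun k ω => ¬ G k ω).fd := by
    refine zx_ge h3.1 z ?_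
    have hpos : ∀ᶠ k in UF, 0 < S.pr (fun k ω => ¬ G k ω) k := eventually_gt_of_lt_ul (Sp.UB_pr _) h2
    filter_upwards [hpos] with k hk ω hω
    have h8 := im_ev (F := S.F k) (fun ω => ¬ G k ω) hk.ne' rfl hω
    exact (not_le.1 h8).le
  have h8 := hδ _ h2
  linarith

/-- K-labels of a window are K-labels of the same window at all resolutions -/
theorem KLb_tnL {s : MSys S M E ι} {R : Rsl S} {c ρ : ℝ} (h0 : 0 < ρ) (h1 : ρ ≤ 1) {l : Lab S} (hl : KLb s R c l) :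
    KLb (s.trn ρ h0 h1) R (c / ρ) (tnL ρ h0 l) := by
  refine ⟨fun i => ?_, hl.2⟩
  have h2 := hl.1 i
  rcases i with _ | i
  · exact nul_trn.2 h2
  · apply nul_trn.2
    have e1 : (fun k => ((tnL ρ h0 l) k).leak ((s.trn ρ h0 h1).cnd (c / ρ) (some i) k)) =
        fun k => (l k).leak ((s.lf i).win c k) := by
      funext k
      rw [s.trn_leak (c / ρ) (tnL ρ h0 l) (some i) k, untL_tnL]
      show (l k).leak ((s.lf i).win (ρ * (c / ρ)) k) = _
      rw [mul_div_cancel₀ _ h0.ne']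
    show Nul S (fun k => ((tnL ρ h0 l) k).leak ((s.trn ρ h0 h1).cnd (c / ρ) (some i) k))
    rw [e1]
    exact h2

/-- **RESOLUTIONS above the top exponent do not lose codimension**, pairs -/
theorem trnK_ge {s : MSys S M E ι} {R : Rsl S} (hlit : Lit R s.Q) {c t ρ : ℝ} (h0 : 0 < ρ) (h1 : ρ ≤ 1) (ht : t < ρ)
    {x : ∀ k, FD (S.F k) (Mon M D)} (hx : KOp s R D c x) (hG : GrLe s.Q x t) :
    M - volK s R D c ≤ ρ * (M - volK (s.trn ρ h0 h1) R D (c / ρ)) := by
  have h2 : KLb s R c (lb x) := ⟨hx.1.1.dm, hx.1.2⟩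
  have h3 := KLb_tnL h0 h1 h2
  have h4 := trn_geC (C' := KZ (S := S.chg S.tr ρ h0) R) (A' := cndR (s.trn ρ h0 h1) R (c / ρ)) h0 h1 ht hx.1.1
    (dmZ_K hlit hx) hG h3.1 h3.2
  have h5 := volK_eq (S := S.chg S.tr ρ h0) (s.trn ρ h0 h1) R D (c / ρ)
  rw [volK_of_opt hx]
  exact h4.trans (congrArg (fun v : ℝ => ρ * ((M : ℝ) - v)) h5.symm).le

/-- **EXHAUSTION**: if the hull loses codimension at resolutions `ρ < 1` close to `1` and the deficit is the same on all
events, the deficit of the window is `0` -/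
theorem exhK {s : MSys S (d + 1) (lin g) ι} {R : Rsl S} (hST : ∀ r, STm D d (lin g) (Fin r)) (hlit : Lit R s.Q)
    (hD : 1 ≤ D) {c : ℝ} (h0 : 0 ≤ c) (h1 : c < 1) {L : LF S (Mon (d + 1) D)} (hL : KOp s R D c L.fd)
    (hrob : ∀ (A : ∀ k, (S.F k).Ω → Prop) (hA : 0 < ul (S.pr A)),
      volK s R D c - HK s R c ≤ volK (s.im (Pj.id S) A hA) R D c - HK (s.im (Pj.id S) A hA) R c)
    (hu : ∀ η : ℝ, 0 < η → ∃ ρ : ℝ, 1 - η < ρ ∧ ∃ (a : 0 < ρ) (b : ρ ≤ 1),
      ρ * ((d + 1 : ℕ) - volK (s.trn ρ a b) R D (c / ρ)) < (d + 1 : ℕ) - volK s R D c) :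
    volK s R D c ≤ HK s R c := by
  by_contra hcon
  push Not at hcon
  set δ : ℝ := volK s R D c - HK s R c with hδ
  have hδ0 : 0 < δ := by linarith
  have hG : GrLe s.Q L.fd (1 - δ) := exhK_typ hST hlit hD h0 h1 hL.1 hrob
  obtain ⟨ρ, h2, a, b, h3⟩ := hu δ hδ0
  have h4 := trnK_ge hlit a b h2 hL hG
  linarith

/-- THE TOP EXPONENT of one literal form: gradients which are at least `2 ^ ((1 - ε) n)` on events of positive probability
give deficit `0` -/
theorem exhK_top {s : MSys S (d + 1) (lin g) ι} {R : Rsl S} (hST : ∀ r, STm D d (lin g) (Fin r)) (hlit : Lit R s.Q)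
    (hD : 1 ≤ D) {c : ℝ} (h0 : 0 ≤ c) (h1 : c < 1) {L : LF S (Mon (d + 1) D)} (hL : KAd s R D c L.fd)
    (hrob : ∀ (A : ∀ k, (S.F k).Ω → Prop) (hA : 0 < ul (S.pr A)),
      volK s R D c - HK s R c ≤ volK (s.im (Pj.id S) A hA) R D c - HK (s.im (Pj.id S) A hA) R c)
    (ht : ∀ t : ℝ, t < 1 → ¬ GrLe s.Q L.fd t) : volK s R D c ≤ HK s R c := by
  by_contra hcon
  push Not at hcon
  exact ht _ (by linarith) (exhK_typ hST hlit hD h0 h1 hL hrob)

end

end Pool.Agent.Helper61.SEL
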