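import Pool.Agent.Helper61.SEL.Rv

/-! # Two monotone functions with a defect: the three cases at the typical point -/

set_option autoImplicit false

namespace Pool.Agent.Helper61.SEL

open MeasureTheory Set Filter Topology Metric Function
open scoped ENNReal NNReal

noncomputable section

variable {U J : ℝ → ℝ} (hU : Monotone U) (hJ : Monotone J) {P : ℝ → Prop} {α β : ℝ}

/-- the real mass of a closed interval -/
def mr (U : ℝ → ℝ) (s t : ℝ) : ℝ := rightLim U t - leftLim U s

include hU in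
theorem mr_ge {s t : ℝ} : U t - U s ≤ mr U s t := by
  have h1 := hU.le_rightLim (le_refl t)
  have h2 := hU.leftLim_le (le_refl s)
  unfold mr
  linarith

include hU in
theorem mr_nn {s t : ℝ} (h : s ≤ t) : 0 ≤ mr U s t :=
  le_trans (sub_nonneg.2 (hU h)) (mr_ge hU)

include hU in
theorem mr_le {s t s' t' : ℝ} (hs : s' < s) (ht : t < t') : mr U s t ≤ U t' - U s' := by
  have h1 := hU.rightLim_le ht
  have h2 := hU.le_leftLim hs
  unfold mr
  linarith

theorem ms_cb (c r : ℝ) : ms hU (closedBall c r) = ENNReal.ofReal (mr U (c - r) (c + r)) := by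
  rw [Real.closedBall_eq_Icc, ms_Icc]
  rfl

/-- the defect on an interval, in real numbers -/
theorem low_real {θ : ℝ≥0} {c : ℝ} (h : Tp hU hJ P α β θ c) {δ : ℝ} (hδ : 0 < δ) :
    ∀ᶠ r in 𝓝[>] (0 : ℝ), ∀ s t, c - r ≤ s → s ≤ t → t ≤ c + r →
      mr J s t ≤ θ * mr U s t + δ * mr U (c - r) (c + r) := by
  obtain ⟨d, rfl⟩ : ∃ d : ℝ≥0, (d : ℝ) = δ := ⟨δ.toNNReal, Real.coe_toNNReal _ hδ.le⟩
  have h1 := h.low d (by exact_mod_cast hδ)
  filter_upwards [h1, self_mem_nhdsWithin] with r hr hr0 s t h2 h3 h4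
  have hr1 : (0 : ℝ) < r := hr0
  have h5 := hr (Icc s t) (by
    rw [Real.closedBall_eq_Icc]
    exact Icc_subset_Icc h2 h4) measurableSet_Icc
  rw [ms_Icc, ms_Icc, ms_cb] at h5
  have hn1 : 0 ≤ mr U s t := mr_nn hU h3
  have hn2 : 0 ≤ mr U (c - r) (c + r) := mr_nn hU (by linarith)
  have t0 : (0 : ℝ) ≤ θ := NNReal.coe_nonneg θ
  have d0 : (0 : ℝ) ≤ d := NNReal.coe_nonneg d
  have h6 : ((θ : ℝ≥0∞) * ENNReal.ofReal (rightLim U t - leftLim U s) +
      (d : ℝ≥0∞) * ENNReal.ofReal (mr U (c - r) (c + r))) =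
      ENNReal.ofReal ((θ : ℝ) * mr U s t + d * mr U (c - r) (c + r)) := by
    rw [ENNReal.ofReal_add (mul_nonneg t0 hn1) (mul_nonneg d0 hn2), ENNReal.ofReal_mul t0, ENNReal.ofReal_mul d0,
      ENNReal.ofReal_coe_nnreal, ENNReal.ofReal_coe_nnreal]
    rfl
  rw [h6] at h5
  exact (ENNReal.ofReal_le_ofReal_iff (add_nonneg (mul_nonneg t0 hn1) (mul_nonneg d0 hn2))).1 h5

/-- the mass of a small ball is positive -/
theorem pos_real {θ : ℝ≥0} {c : ℝ} (h : Tp hU hJ P α β θ c) : ∀ᶠ r in 𝓝[>] (0 : ℝ), 0 < mr U (c - r) (c + r) := by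
  filter_upwards [h.pos] with r hr
  rw [ms_cb, ne_eq, ENNReal.ofReal_eq_zero, not_le] at hr
  exact hr

/-- single atoms are small near a point without mass -/
theorem atom_real {θ : ℝ≥0} {c : ℝ} (h : Tp hU hJ P α β θ c) (h0 : ms hU {c} = 0) {δ : ℝ} (hδ : 0 < δ) :
    ∀ᶠ r in 𝓝[>] (0 : ℝ), ∀ s, c - r ≤ s → s ≤ c + r → mr U s s ≤ δ * mr U (c - r) (c + r) := by
  obtain ⟨-, -, h3⟩ := h.at' h0
  have h4 := h3.eventually (gt_mem_nhds (show (0 : ℝ≥0∞) < ENNReal.ofReal δ by exact ENNReal.ofReal_pos.2 hδ))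
  filter_upwards [h4, h.pos, pos_real hU hJ h] with r hr hr1 hr2 s h5 h6
  by_cases hs : s ∈ At U
  · rw [ENNReal.div_lt_iff (Or.inl hr1) (Or.inl (by rw [ms_cb]; exact ENNReal.ofReal_ne_top)), ms_cb,
      ← ENNReal.ofReal_mul hδ.le] at hr
    have h7 : ms hU {s} ≤ ENNReal.ofReal (δ * mr U (c - r) (c + r)) := by
      refine (measure_mono ?_).trans hr.le
      rintro x rfl
      refine ⟨hs, ?_⟩
      rw [Real.closedBall_eq_Icc]
      exact ⟨h5, h6⟩
    rw [ms_singleton] at h7
    exact (ENNReal.ofReal_le_ofReal_iff (mul_nonneg hδ.le hr2.le)).1 h7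
  · rw [At_iff hU, not_not, ms_singleton, ENNReal.ofReal_eq_zero] at hs
    exact hs.trans (mul_nonneg hδ.le hr2.le)

/-- the length is small with respect to the mass when the limit is `0` -/
theorem vol_real {c : ℝ} (hp : ∀ᶠ r in 𝓝[>] (0 : ℝ), 0 < mr U (c - r) (c + r))
    (h : Tendsto (fun r => volume (closedBall c r) / ms hU (closedBall c r)) (𝓝[>] 0) (𝓝 0)) {δ : ℝ} (hδ : 0 < δ) :
    ∀ᶠ r in 𝓝[>] (0 : ℝ), 2 * r ≤ δ * mr U (c - r) (c + r) := by
  have h4 := h.eventually (gt_mem_nhds (show (0 : ℝ≥0∞) < ENNReal.ofReal δ by exact ENNReal.ofReal_pos.2 hδ))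
  filter_upwards [h4, hp, self_mem_nhdsWithin] with r hr hr2 hr0
  have hr1 : ms hU (closedBall c r) ≠ 0 := by
    rw [ms_cb, ne_eq, ENNReal.ofReal_eq_zero, not_le]
    exact hr2
  rw [ENNReal.div_lt_iff (Or.inl hr1) (Or.inl (by rw [ms_cb]; exact ENNReal.ofReal_ne_top)), ms_cb,
      ← ENNReal.ofReal_mul hδ.le, Real.volume_closedBall] at hr
  exact (ENNReal.ofReal_le_ofReal_iff (mul_nonneg hδ.le hr2.le)).1 hr.le

/-- (case B) a point without mass, the singular part -/
theorem case_b {θ : ℝ≥0} (hθ : θ < 1) {c : ℝ} (h : Tp hU hJ P α β θ c) (h0 : ms hU {c} = 0)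
    (hv : Tendsto (fun r => volume (closedBall c r) / ms hU (closedBall c r)) (𝓝[>] 0) (𝓝 0)) {δ : ℝ} (hδ : 0 < δ) :
    ∀ᶠ r in 𝓝[>] (0 : ℝ), 0 < U (c + r) - U (c - r) ∧ 2 * r ≤ δ * (U (c + r) - U (c - r)) ∧
      (∀ s t, c - r ≤ s → s ≤ t → t ≤ c + r → J t - J s ≤ θ * (U t - U s) + δ * (U (c + r) - U (c - r))) ∧
      ∀ v, U (c - r) ≤ v → v ≤ U (c + r) → ∃ s, c - r ≤ s ∧ s ≤ c + r ∧ |U s - v| ≤ δ * (U (c + r) - U (c - r)) := by
  set γ : ℝ := min (δ / 8) (1 / 4) with hγ
  have hγ0 : 0 < γ := lt_min (by linarith) (by norm_num)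
  have hγ1 : γ ≤ δ / 8 := min_le_left _ _
  have hγ2 : γ ≤ 1 / 4 := min_le_right _ _
  have hθ' : (θ : ℝ) ≤ 1 := by exact_mod_cast hθ.le
  have hθ0 : (0 : ℝ) ≤ θ := θ.2
  filter_upwards [low_real hU hJ h hγ0, pos_real hU hJ h, atom_real hU hJ h h0 hγ0,
    vol_real hU (pos_real hU hJ h) hv hγ0, self_mem_nhdsWithin] with r h1 h2 h3 h4 hr
  have hr0 : (0 : ℝ) < r := hr
  set M := mr U (c - r) (c + r) with hM
  set e := U (c + r) - U (c - r) with he
  have h5 := h3 (c - r) le_rfl (by linarith)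
  have h6 := h3 (c + r) (by linarith) le_rfl
  have k1 := hU.le_rightLim (le_refl (c - r))
  have k2 := hU.leftLim_le (le_refl (c - r))
  have k3 := hU.le_rightLim (le_refl (c + r))
  have k4 := hU.leftLim_le (le_refl (c + r))
  have hMe : M ≤ 2 * e := by
    unfold mr at h5 h6 hM
    have h7 : M ≤ e + 2 * (γ * M) := by
      rw [hM, he]
      rw [hM] at h5 h6
      linarith
    nlinarith
  have hγM : γ * M ≤ δ / 4 * e := by
    have he0 : 0 ≤ e := sub_nonneg.2 (hU (by linarith))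
    calc γ * M ≤ γ * (2 * e) := mul_le_mul_of_nonneg_left hMe hγ0.le
      _ ≤ δ / 8 * (2 * e) := mul_le_mul_of_nonneg_right hγ1 (by linarith)
      _ = δ / 4 * e := by ring
  have he0 : 0 < e := by linarith
  have hδe : 0 < δ * e := mul_pos hδ he0
  refine ⟨he0, by linarith, fun s t hs hst ht => ?_, fun v hv1 hv2 => ?_⟩
  · have h7 := h1 s t hs hst ht
    have h8 := h3 s hs (by linarith)
    have h9 := h3 t (by linarith) ht
    have l1 := hU.le_rightLim (le_refl s)
    have l2 := hU.leftLim_le (le_refl s)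
    have l3 := hU.le_rightLim (le_refl t)
    have l4 := hU.leftLim_le (le_refl t)
    have l5 := mr_ge hJ (s := s) (t := t)
    have h10 : mr U s t ≤ (U t - U s) + 2 * (γ * M) := by
      unfold mr at h8 h9 ⊢
      linarith
    have h11 : (θ : ℝ) * mr U s t ≤ θ * (U t - U s) + 2 * (γ * M) := by
      calc (θ : ℝ) * mr U s t ≤ θ * ((U t - U s) + 2 * (γ * M)) := mul_le_mul_of_nonneg_left h10 hθ0
        _ = θ * (U t - U s) + θ * (2 * (γ * M)) := by ring
        _ ≤ θ * (U t - U s) + 1 * (2 * (γ * M)) := by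
            have : 0 ≤ 2 * (γ * M) := by positivity
            linarith [mul_le_mul_of_nonneg_right hθ' this]
        _ = _ := by ring
    linarith
  · set S : Set ℝ := {s | c - r ≤ s ∧ s ≤ c + r ∧ U s ≤ v} with hS
    have hne : S.Nonempty := ⟨c - r, le_rfl, by linarith, hv1⟩
    have hbd : BddAbove S := ⟨c + r, fun s hs => hs.2.1⟩
    have hs1 : c - r ≤ sSup S := le_csSup hbd ⟨le_rfl, by linarith, hv1⟩
    have hs2 : sSup S ≤ c + r := csSup_le hne fun s hs => hs.2.1
    refine ⟨sSup S, hs1, hs2, ?_⟩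
    have h7 := h3 (sSup S) hs1 hs2
    have l1 := hU.le_rightLim (le_refl (sSup S))
    have l2 := hU.leftLim_le (le_refl (sSup S))
    -- the value is between the two limits
    have hlo : leftLim U (sSup S) ≤ v ∨ U (sSup S) ≤ v := by
      by_cases hmem : sSup S ∈ S
      · exact Or.inr hmem.2.2
      · left
        refine le_of_tendsto (hU.tendsto_leftLim (sSup S)) ?_
        filter_upwards [self_mem_nhdsWithin] with x hx
        obtain ⟨y, hy, hxy⟩ := exists_lt_of_lt_csSup hne (show x < sSup S from hx)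
        exact (hU hxy.le).trans hy.2.2
    have hlo' : leftLim U (sSup S) ≤ v := by
      rcases hlo with h | h
      · exact h
      · linarith
    have hhi : v ≤ rightLim U (sSup S) := by
      rcases eq_or_lt_of_le hs2 with h | h
      · rw [h]
        linarith
      · refine ge_of_tendsto (hU.tendsto_rightLim (sSup S)) ?_
        filter_upwards [Ioo_mem_nhdsGT h] with x hx
        by_contra hcon
        push Not at hcon
        exact absurd (le_csSup hbd (show x ∈ S from ⟨by linarith [hx.1], hx.2.le, hcon.le⟩)) (not_le.2 hx.1)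
    unfold mr at h7
    rw [abs_le]
    constructor <;> linarith

/-- (case A) the two functions are differentiable at `c` and the point carries absolutely continuous mass -/
theorem case_a {θ : ℝ≥0} {c : ℝ} (h : Tp hU hJ P α β θ c) {p : ℝ≥0∞} (hp : p < ∞)
    (hv : Tendsto (fun r => volume (closedBall c r) / ms hU (closedBall c r)) (𝓝[>] 0) (𝓝 p)) {a b : ℝ}
    (dU : HasDerivAt U a c) (dJ : HasDerivAt J b c) : 0 < a ∧ b ≤ θ * a := by
  have t0 : (0 : ℝ) ≤ θ := NNReal.coe_nonneg θ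
  have key : ∀ {V : ℝ → ℝ} {a : ℝ}, HasDerivAt V a c → ∀ ε : ℝ, 0 < ε → ∀ κ : ℝ, 0 < κ → ∀ᶠ r in 𝓝[>] (0 : ℝ),
      |V (c + κ * r) - V c - a * (κ * r)| ≤ ε * (κ * r) ∧ |V (c - κ * r) - V c + a * (κ * r)| ≤ ε * (κ * r) := by
    intro V a hV ε hε κ hκ
    have h1 := (hasDerivAt_iff_isLittleO.1 hV).def hε
    have h2 : Tendsto (fun r : ℝ => c + κ * r) (𝓝[>] 0) (𝓝 c) := by
      have : Tendsto (fun r : ℝ => c + κ * r) (𝓝 0) (𝓝 (c + κ * 0)) := by
        apply Continuous.tendsto
        fun_prop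
      rw [mul_zero, add_zero] at this
      exact this.mono_left nhdsWithin_le_nhds
    have h3 : Tendsto (fun r : ℝ => c - κ * r) (𝓝[>] 0) (𝓝 c) := by
      have : Tendsto (fun r : ℝ => c - κ * r) (𝓝 0) (𝓝 (c - κ * 0)) := by
        apply Continuous.tendsto
        fun_prop
      rw [mul_zero, sub_zero] at this
      exact this.mono_left nhdsWithin_le_nhds
    filter_upwards [h2.eventually h1, h3.eventually h1, self_mem_nhdsWithin] with r h4 h5 h6
    have h7 : (0 : ℝ) < κ * r := mul_pos hκ h6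
    simp only [Real.norm_eq_abs, smul_eq_mul] at h4 h5
    rw [show c + κ * r - c = κ * r by ring, abs_of_pos h7] at h4
    rw [show c - κ * r - c = -(κ * r) by ring, abs_neg, abs_of_pos h7] at h5
    refine ⟨?_, ?_⟩
    · rw [mul_comm a]
      exact h4
    · rw [show V (c - κ * r) - V c + a * (κ * r) = V (c - κ * r) - V c - -(κ * r) * a by ring]
      exact h5
  have ha : 0 < a := by
    by_contra hcon
    push Not at hcon
    set K : ℝ := p.toReal + 1 with hK
    have hP0 : 0 < K := by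
      have := ENNReal.toReal_nonneg (a := p)
      linarith
    have h1 : ∀ᶠ r in 𝓝[>] (0 : ℝ), 2 * r ≤ K * mr U (c - r) (c + r) := by
      have h2 : p < ENNReal.ofReal K := by
        rw [← ENNReal.ofReal_toReal hp.ne]
        exact (ENNReal.ofReal_lt_ofReal_iff hP0).2 (by linarith)
      filter_upwards [hv.eventually (gt_mem_nhds h2), pos_real hU hJ h, self_mem_nhdsWithin] with r hr hr2 hr0
      have hr1 : ms hU (closedBall c r) ≠ 0 := by
        rw [ms_cb, ne_eq, ENNReal.ofReal_eq_zero, not_le]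
        exact hr2
      rw [ENNReal.div_lt_iff (Or.inl hr1) (Or.inl (by rw [ms_cb]; exact ENNReal.ofReal_ne_top)), ms_cb,
          ← ENNReal.ofReal_mul hP0.le, Real.volume_closedBall] at hr
      exact (ENNReal.ofReal_le_ofReal_iff (mul_nonneg hP0.le hr2.le)).1 hr.le
    obtain ⟨r, hr, ⟨h2, h3⟩, h4⟩ := (h1.and ((key dU (1 / (4 * K)) (by positivity) 2 two_pos).and
      (self_mem_nhdsWithin (s := Ioi (0 : ℝ))))).exists
    have hr0 : (0 : ℝ) < r := h4
    have h5 : mr U (c - r) (c + r) ≤ U (c + 2 * r) - U (c - 2 * r) := mr_le hU (by linarith) (by linarith)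
    have h6 : U (c + 2 * r) - U (c - 2 * r) ≤ 1 / (4 * K) * (4 * r) := by
      have h7 := (abs_le.1 h2).2
      have h8 := (abs_le.1 h3).1
      have h9 : a * (2 * r) ≤ 0 := mul_nonpos_of_nonpos_of_nonneg hcon (by linarith)
      linarith
    have h7 : 2 * r ≤ K * (1 / (4 * K) * (4 * r)) := hr.trans (mul_le_mul_of_nonneg_left (h5.trans h6) hP0.le)
    have h8 : K * (1 / (4 * K) * (4 * r)) = r := by field_simp
    linarith
  refine ⟨ha, ?_⟩
  have h1 : ∀ δ : ℝ, 0 < δ → b ≤ δ + (θ + δ) * ((1 + δ) * (a + δ)) := by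
    intro δ hδ
    obtain ⟨r, h1, ⟨h2, h3⟩, ⟨h4, h5⟩, h6⟩ := ((low_real hU hJ h hδ).and ((key dU δ hδ (1 + δ) (by linarith)).and
      ((key dJ δ hδ 1 one_pos).and (self_mem_nhdsWithin (s := Ioi (0 : ℝ)))))).exists
    have hr0 : (0 : ℝ) < r := h6
    have h7 := h1 (c - r) (c + r) le_rfl (by linarith) le_rfl
    have h8 := mr_ge hJ (s := c - r) (t := c + r)
    have h9 : mr U (c - r) (c + r) ≤ U (c + (1 + δ) * r) - U (c - (1 + δ) * r) :=
      mr_le hU (by nlinarith) (by nlinarith)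
    have h10 := (abs_le.1 h2).2
    have h11 := (abs_le.1 h3).1
    have h12 := (abs_le.1 h4).1
    have h13 := (abs_le.1 h5).2
    rw [one_mul] at h12 h13
    have h14 : mr U (c - r) (c + r) ≤ 2 * r * ((1 + δ) * (a + δ)) := by
      have : U (c + (1 + δ) * r) - U (c - (1 + δ) * r) ≤ 2 * (a * ((1 + δ) * r) + δ * ((1 + δ) * r)) := by linarith
      linarith
    have h15 : 2 * r * b ≤ 2 * r * (δ + (θ + δ) * ((1 + δ) * (a + δ))) := by
      calc 2 * r * b ≤ (J (c + r) - J (c - r)) + 2 * (δ * r) := by linarith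
        _ ≤ mr J (c - r) (c + r) + 2 * (δ * r) := by linarith
        _ ≤ (θ + δ) * mr U (c - r) (c + r) + 2 * (δ * r) := by linarith
        _ ≤ (θ + δ) * (2 * r * ((1 + δ) * (a + δ))) + 2 * (δ * r) := by
            have := mul_le_mul_of_nonneg_left h14 (show 0 ≤ (θ : ℝ) + δ by linarith)
            linarith
        _ = _ := by ring
    exact le_of_mul_le_mul_left h15 (by linarith)
  have h2 : Tendsto (fun δ : ℝ => δ + (θ + δ) * ((1 + δ) * (a + δ))) (𝓝[>] 0) (𝓝 (0 + (θ + 0) * ((1 + 0) * (a + 0)))) := by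
    refine Tendsto.mono_left ?_ nhdsWithin_le_nhds
    apply Continuous.tendsto
    fun_prop
  have h3 : b ≤ 0 + ((θ : ℝ) + 0) * ((1 + 0) * (a + 0)) := by
    refine ge_of_tendsto h2 ?_
    filter_upwards [self_mem_nhdsWithin] with δ hδ
    exact h1 δ hδ
  linarith [show 0 + ((θ : ℝ) + 0) * ((1 + 0) * (a + 0)) = θ * a by ring]

/-- (case C) an atom -/
theorem case_c {θ : ℝ≥0} {c : ℝ} (h : Tp hU hJ P α β θ c) (h0 : ms hU {c} ≠ 0) : 0 < mr U c c ∧ mr J c c ≤ θ * mr U c c := by
  have h1 : 0 < mr U c c := by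
    rw [ms_singleton, ne_eq, ENNReal.ofReal_eq_zero, not_le] at h0
    exact h0
  refine ⟨h1, ?_⟩
  have hM : 0 ≤ U (c + 2) - U (c - 2) := sub_nonneg.2 (hU (by linarith))
  have h2 : ∀ δ : ℝ, 0 < δ → mr J c c ≤ θ * mr U c c + δ := by
    intro δ hδ
    obtain ⟨r, h2, h3⟩ := ((low_real hU hJ h (δ := δ / (U (c + 2) - U (c - 2) + 1)) (by positivity)).and
      (Ioo_mem_nhdsGT (show (0 : ℝ) < 1 by norm_num))).exists
    have h4 := h2 c c (by linarith [h3.1]) le_rfl (by linarith [h3.1])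
    have h5 : mr U (c - r) (c + r) ≤ U (c + 2) - U (c - 2) + 1 := by
      have := mr_le hU (s := c - r) (t := c + r) (s' := c - 2) (t' := c + 2) (by linarith [h3.2]) (by linarith [h3.2])
      linarith
    have h6 : δ / (U (c + 2) - U (c - 2) + 1) * mr U (c - r) (c + r) ≤ δ := by
      calc δ / (U (c + 2) - U (c - 2) + 1) * mr U (c - r) (c + r)
          ≤ δ / (U (c + 2) - U (c - 2) + 1) * (U (c + 2) - U (c - 2) + 1) :=
            mul_le_mul_of_nonneg_left h5 (by positivity)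
        _ = δ := by field_simp
    linarith
  exact le_of_forall_pos_le_add h2

/-- `u`, `I` monotone on `[α, β]`, `I` grows less than `u`: there is `θ < 1` and one of
(A) a point where both are differentiable, `I' ≤ θ u'`, `u' > 0` (and any given property which holds almost everywhere);
(B) a continuity point of `u` near which `dI ≤ θ du`, the length is small with respect to the growth of `u` and all
intermediate values of `u` are taken approximately;
(C1) an atom of `u` at `c` from the left, (C2) from the right, with `ΔI ≤ θ Δu`. -/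
theorem first_real {u I : ℝ → ℝ} (hP : ∀ᵐ x, P x) (hαβ : α ≤ β) (hu : MonotoneOn u (Icc α β))
    (hI : MonotoneOn I (Icc α β)) (hd : I β - I α < u β - u α) : ∃ θ : ℝ, 0 ≤ θ ∧ θ < 1 ∧
    ((∃ c a b, α < c ∧ c < β ∧ P c ∧ 0 < a ∧ HasDerivAt u a c ∧ HasDerivAt I b c ∧ 0 ≤ b ∧ b ≤ θ * a) ∨
    (∃ c, α < c ∧ c < β ∧ ContinuousAt u c ∧ ∀ δ : ℝ, 0 < δ → ∀ᶠ r in 𝓝[>] (0 : ℝ), α < c - r ∧ c + r < β ∧
      0 < u (c + r) - u (c - r) ∧ 2 * r ≤ δ * (u (c + r) - u (c - r)) ∧
      (∀ s t, c - r ≤ s → s ≤ t → t ≤ c + r → I t - I s ≤ θ * (u t - u s) + δ * (u (c + r) - u (c - r))) ∧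
      ∀ v, u (c - r) ≤ v → v ≤ u (c + r) → ∃ s, c - r ≤ s ∧ s ≤ c + r ∧ |u s - v| ≤ δ * (u (c + r) - u (c - r))) ∨
    (∃ c d d', α < c ∧ c ≤ β ∧ 0 < d ∧ 0 ≤ d' ∧ d' ≤ θ * d ∧ Tendsto u (𝓝[<] c) (𝓝 (u c - d)) ∧
      Tendsto I (𝓝[<] c) (𝓝 (I c - d'))) ∨
    (∃ c d d', α ≤ c ∧ c < β ∧ 0 < d ∧ 0 ≤ d' ∧ d' ≤ θ * d ∧ Tendsto u (𝓝[>] c) (𝓝 (u c + d)) ∧
      Tendsto I (𝓝[>] c) (𝓝 (I c + d')))) := by
  -- the extended functions
  set pr : ℝ → ℝ := fun x => max α (min x β) with hpr
  have pr_mono : Monotone pr := fun x y hxy => max_le_max le_rfl (min_le_min hxy le_rfl)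
  have pr_mem : ∀ x, pr x ∈ Icc α β := fun x => ⟨le_max_left _ _, max_le hαβ (min_le_right _ _)⟩
  have pr_id : ∀ x, α ≤ x → x ≤ β → pr x = x := by
    intro x h1 h2
    simp only [hpr]
    rw [min_eq_left h2, max_eq_right h1]
  have pr_lo : ∀ x, x ≤ α → pr x = α := by
    intro x h1
    simp only [hpr]
    rw [min_eq_left (h1.trans hαβ), max_eq_left h1]
  have pr_hi : ∀ x, β ≤ x → pr x = β := by
    intro x h1
    simp only [hpr]
    rw [min_eq_right h1, max_eq_right hαβ]
  set U : ℝ → ℝ := fun x => u (pr x) with hUd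
  set J : ℝ → ℝ := fun x => I (pr x) with hJd
  have hU : Monotone U := fun x y hxy => hu (pr_mem x) (pr_mem y) (pr_mono hxy)
  have hJ : Monotone J := fun x y hxy => hI (pr_mem x) (pr_mem y) (pr_mono hxy)
  have eU : ∀ x, α ≤ x → x ≤ β → U x = u x := fun x h1 h2 => by simp only [hUd]; rw [pr_id x h1 h2]
  have eJ : ∀ x, α ≤ x → x ≤ β → J x = I x := fun x h1 h2 => by simp only [hJd]; rw [pr_id x h1 h2]
  have u0 : ∀ x, x ≤ α → U x = U α := fun x h => by simp only [hUd]; rw [pr_lo x h, pr_lo α le_rfl]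
  have u1 : ∀ x, β ≤ x → U x = U β := fun x h => by simp only [hUd]; rw [pr_hi x h, pr_hi β le_rfl]
  have j0 : ∀ x, x ≤ α → J x = J α := fun x h => by simp only [hJd]; rw [pr_lo x h, pr_lo α le_rfl]
  have j1 : ∀ x, β ≤ x → J x = J β := fun x h => by simp only [hJd]; rw [pr_hi x h, pr_hi β le_rfl]
  obtain ⟨θ, hθ, c, hc⟩ := exists_tp hU hJ hP hαβ u0 u1 j0 j1 (by
    rw [eU β hαβ le_rfl, eU α le_rfl hαβ, eJ β hαβ le_rfl, eJ α le_rfl hαβ]
    exact hd)
  refine ⟨θ, NNReal.coe_nonneg θ, by exact_mod_cast hθ, ?_⟩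
  have near : ∀ c, α < c → c < β → ∀ᶠ r in 𝓝[>] (0 : ℝ), α < c - r ∧ c + r < β ∧ 0 < r := by
    intro c h1 h2
    filter_upwards [Ioo_mem_nhdsGT (show (0 : ℝ) < min (c - α) (β - c) from lt_min (by linarith) (by linarith))] with r hr
    have h3 := lt_of_lt_of_le hr.2 (min_le_left _ _)
    have h4 := lt_of_lt_of_le hr.2 (min_le_right _ _)
    exact ⟨by linarith, by linarith, hr.1⟩
  have nbU : ∀ c, α < c → c < β → U =ᶠ[𝓝 c] u := by
    intro c h1 h2
    filter_upwards [Ioo_mem_nhds h1 h2] with x hx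
    exact eU x hx.1.le hx.2.le
  have nbJ : ∀ c, α < c → c < β → J =ᶠ[𝓝 c] I := by
    intro c h1 h2
    filter_upwards [Ioo_mem_nhds h1 h2] with x hx
    exact eJ x hx.1.le hx.2.le
  by_cases h0 : ms hU {c} = 0
  · obtain ⟨hca, hcb, -⟩ := hc.at' h0
    have h1 : α < c := lt_of_le_of_ne hc.mem.1 (Ne.symm hca)
    have h2 : c < β := lt_of_le_of_ne hc.mem.2 hcb
    obtain ⟨p, hp, hv, hdp⟩ := hc.vol
    by_cases hp0 : p = 0
    · -- the singular part
      right
      left
      have hcont : ContinuousAt U c := by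
        by_contra hcon
        exact (At_iff hU c).1 hcon h0
      refine ⟨c, h1, h2, hcont.congr (nbU c h1 h2), fun δ hδ => ?_⟩
      rw [hp0] at hv
      filter_upwards [case_b hU hJ hθ hc h0 hv hδ, near c h1 h2] with r hr hn
      obtain ⟨n1, n2, n3⟩ := hn
      rw [eU (c + r) (by linarith) n2.le, eU (c - r) n1.le (by linarith)] at hr
      obtain ⟨k1, k2, k3, k4⟩ := hr
      refine ⟨n1, n2, k1, k2, fun s t hs hst ht => ?_, fun v hv1 hv2 => ?_⟩
      · have := k3 s t hs hst ht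
        rwa [eU t (by linarith) (by linarith), eU s (by linarith) (by linarith), eJ t (by linarith) (by linarith),
          eJ s (by linarith) (by linarith)] at this
      · obtain ⟨s, s1, s2, s3⟩ := k4 v hv1 hv2
        rw [eU s (by linarith) (by linarith)] at s3
        exact ⟨s, s1, s2, s3⟩
    · -- the absolutely continuous part
      left
      obtain ⟨dU, dJ, hPc⟩ := hdp hp0
      obtain ⟨ha, hb⟩ := case_a hU hJ hc hp hv dU.hasDerivAt dJ.hasDerivAt
      refine ⟨c, deriv U c, deriv J c, h1, h2, hPc, ha, ?_, ?_, ?_, hb⟩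
      · exact dU.hasDerivAt.congr_of_eventuallyEq (nbU c h1 h2).symm
      · exact dJ.hasDerivAt.congr_of_eventuallyEq (nbJ c h1 h2).symm
      · exact hJ.deriv_nonneg
  · -- an atom
    right
    right
    obtain ⟨c1, c2⟩ := case_c hU hJ hc h0
    have t0 : (0 : ℝ) ≤ θ := NNReal.coe_nonneg θ
    have l1 := hU.leftLim_le (le_refl c)
    have l2 := hU.le_rightLim (le_refl c)
    have l3 := hJ.leftLim_le (le_refl c)
    have l4 := hJ.le_rightLim (le_refl c)
    have hL : 0 < U c - leftLim U c → α < c := by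
      intro h
      by_contra hcon
      push Not at hcon
      have h3 : Tendsto U (𝓝[<] c) (𝓝 (U c)) := by
        refine tendsto_const_nhds.congr' ?_
        filter_upwards [self_mem_nhdsWithin] with x hx
        rw [u0 x ((le_of_lt hx).trans hcon), u0 c hcon]
      have h4 := tendsto_nhds_unique h3 (hU.tendsto_leftLim c)
      linarith
    have hR : 0 < rightLim U c - U c → c < β := by
      intro h
      by_contra hcon
      push Not at hcon
      have h3 : Tendsto U (𝓝[>] c) (𝓝 (U c)) := by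
        refine tendsto_const_nhds.congr' ?_
        filter_upwards [self_mem_nhdsWithin] with x hx
        rw [u1 x (hcon.trans (le_of_lt hx)), u1 c hcon]
      have h4 := tendsto_nhds_unique h3 (hU.tendsto_rightLim c)
      linarith
    have hor : (0 < U c - leftLim U c ∧ J c - leftLim J c ≤ θ * (U c - leftLim U c)) ∨
        (0 < rightLim U c - U c ∧ rightLim J c - J c ≤ θ * (rightLim U c - U c)) := by
      by_contra hcon
      rw [not_or, not_and_or, not_and_or, not_lt, not_lt, not_le, not_le] at hcon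
      obtain ⟨k1, k2⟩ := hcon
      unfold mr at c1 c2
      rcases k1 with k1 | k1 <;> rcases k2 with k2 | k2
      · linarith
      · have : U c - leftLim U c = 0 := by linarith
        have h3 : (θ : ℝ) * (rightLim U c - leftLim U c) = θ * (rightLim U c - U c) := by
          rw [show rightLim U c - leftLim U c = rightLim U c - U c by linarith]
        linarith
      · have : rightLim U c - U c = 0 := by linarith
        have h3 : (θ : ℝ) * (rightLim U c - leftLim U c) = θ * (U c - leftLim U c) := by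
          rw [show rightLim U c - leftLim U c = U c - leftLim U c by linarith]
        linarith
      · have h3 : (θ : ℝ) * (rightLim U c - leftLim U c) = θ * (U c - leftLim U c) + θ * (rightLim U c - U c) := by ring
        linarith
    rcases hor with ⟨k1, k2⟩ | ⟨k1, k2⟩
    · left
      have hac := hL k1
      refine ⟨c, U c - leftLim U c, J c - leftLim J c, hac, hc.mem.2, k1, by linarith, k2, ?_, ?_⟩
      · rw [← eU c hac.le hc.mem.2, sub_sub_cancel]
        refine (hU.tendsto_leftLim c).congr' ?_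
        filter_upwards [Ioo_mem_nhdsLT hac] with x hx
        exact eU x hx.1.le (hx.2.le.trans hc.mem.2)
      · rw [← eJ c hac.le hc.mem.2, sub_sub_cancel]
        refine (hJ.tendsto_leftLim c).congr' ?_
        filter_upwards [Ioo_mem_nhdsLT hac] with x hx
        exact eJ x hx.1.le (hx.2.le.trans hc.mem.2)
    · right
      have hcb := hR k1
      refine ⟨c, rightLim U c - U c, rightLim J c - J c, hc.mem.1, hcb, k1, by linarith, k2, ?_, ?_⟩
      · rw [← eU c hc.mem.1 hcb.le, add_sub_cancel]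
        refine (hU.tendsto_rightLim c).congr' ?_
        filter_upwards [Ioo_mem_nhdsGT hcb] with x hx
        exact eU x (hc.mem.1.trans hx.1.le) hx.2.le
      · rw [← eJ c hc.mem.1 hcb.le, add_sub_cancel]
        refine (hJ.tendsto_rightLim c).congr' ?_
        filter_upwards [Ioo_mem_nhdsGT hcb] with x hx
        exact eJ x (hc.mem.1.trans hx.1.le) hx.2.le

end

end Pool.Agent.Helper61.SEL
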