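import Pool.Agent.Helper89.RAT.Spe
import Pool.Agent.Helper36.AM.Top

/-! # EXHAUSTION: the deficit of a window is at most `1 -` (exponent of the gradient), in mean and typically

`def_le` : `vol_D (c) - H (Q_1 | kappa_c) ≤ 1 - zx_z`; `exh` : if on all events the deficit is at least `δ`, then the gradient of
the canonical form is typically at most `2 ^ ((1 - δ + ε) n)`. -/

set_option autoImplicit false

namespace Pool.Agent.Helper61.SEL

open Finset Filter Topology Matrix Pool.Agent.Helper69.RK Pool.Agent.Helper31.EC Pool.Agent.Helper31.EC.Sp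
open Pool.Agent.Helper40.EL Pool.Agent.Helper89.LX Pool.Agent.Helper3.LF Pool.Agent.Helper84.MT Pool.Agent.Helper89.RAT
open Pool.Agent.Helper36.AM (HQ HQ_eq volO)
open Pool.Agent.Helper95.LF (PdM)
open Pool.Agent.Helper66.MT (gam_eq_sum)

noncomputable section

variable {S : Sp} {d D g r : ℕ}

/-- the other coordinates -/
def dropV (Q : S.VV (d + 1)) (j : Fin (d + 1)) : S.VV d where
  v := fun k ω a => Q.v k ω (j.succAbove a)
  bd := by
    obtain ⟨K, hK, h⟩ := Q.bd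
    exact ⟨K, hK, h.mono fun k hk ω hω a => hk ω hω _⟩

theorem dropV_le (Q : S.VV (d + 1)) (j : Fin (d + 1)) (ρ : ℝ) : (dropV Q j).dg ρ ≤ Q.dg ρ := by
  apply VV.dg_le_dg (dropV Q j) Q ρ ρ (fun _ _ => True) Typ_true (fun _ => 1) (S.Sub_const zero_le_one)
  refine Eventually.of_forall fun k ω ω' _ _ _ _ _ hd i => ?_
  rw [one_mul]
  exact hd (j.succAbove i)

/-- THE DEFICIT of a window is at most one minus the mean exponent of the gradient in any direction -/
theorem def_le (hD : 1 ≤ D) (hst : STm D d (lin g) (Fin r)) {s : MSys S (d + 1) (lin g) (Fin r)} {c : ℝ} (h0 : 0 ≤ c)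
    (h1 : c < 1) {x : ∀ k, FD (S.F k) (Mon (d + 1) D)} (hx : s.IsCan D c x) (j : Fin (d + 1)) :
    s.vol D c - HQ s c ≤ 1 - zx s.Q j x := by
  have h2 := (idP d).win hD hst s h0 h1 hx j (dropV s.Q j) (fun _ _ _ => rfl)
  have h3 : H (up1 (lb x) ((dropV s.Q j).dg 1)) ≤ H (up1 (lb x) (s.Q.dg 1)) :=
    H_mono (up1_mono _ (dropV_le s.Q j 1))
  have h4 : H (up1 (lb x) (s.Q.dg 1)) = HQ s c := HQ_eq s hx.2
  rw [← s.vol_eq hx.1]
  linarith

/-- the mean exponent is at least any bound which holds everywhere -/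
theorem zx_ge {M : ℕ} {κ : Type} {A : κ → Part S} {Q : S.VV M} {x : ∀ k, FD (S.F k) (Mon M D)} (hx : (gaq Q D).Adf A x)
    (z : Fin M) {a : ℝ} (h : ∀ᶠ k in UF, ∀ ω, (x k).l.T.μ ω ≠ 0 →
      (2 : ℝ) ^ (2 * a * (S.F k).n) ≤ Jz Q z k ((x k).l.p.π ω) ((x k).g ω)) : a ≤ zx Q z x := by
  unfold zx
  refine const_le_ul (zv_UB z hx) ?_
  filter_upwards [h] with k hk
  have hn : (0 : ℝ) < (S.F k).n := (S.F k).pos
  have h1 : a = ∑ ω, (x k).l.T.μ ω * a := by
    rw [← Finset.sum_mul, Pool.Agent.Helper3.PR.sum_mu, one_mul]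
  unfold zv
  refine h1.le.trans (Finset.sum_le_sum fun ω _ => ?_)
  by_cases hω : (x k).l.T.μ ω = 0
  · rw [hω, zero_mul, zero_mul]
  · refine mul_le_mul_of_nonneg_left ?_ ((x k).l.T.nn ω)
    unfold xz
    rw [le_div_iff₀ (by positivity)]
    have h2 := hk ω hω
    have h3 := Real.logb_le_logb_of_le (b := 2) (by norm_num) (by positivity) h2
    rw [Real.logb_rpow (by norm_num) (by norm_num)] at h3
    linarith

/-- **EXHAUSTION, typical version**: if the deficit of the window is at least `δ` on all events of the space of the canonical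
form, its gradient in the direction `z` is typically at most `2 ^ ((1 - δ + ε) n)` -/
theorem exh_z (hD : 1 ≤ D) (hst : STm D d (lin g) (Fin r)) {s : MSys S (d + 1) (lin g) (Fin r)} {c : ℝ} (h0 : 0 ≤ c)
    (h1 : c < 1) {x : ∀ k, FD (S.F k) (Mon (d + 1) D)} (hx : s.IsCan D c x) {δ : ℝ}
    (hδ : ∀ (A : ∀ k, ((lbS x).sp.F k).Ω → Prop) (hA : 0 < ul ((lbS x).sp.pr A)),
      δ ≤ (s.im (lbS x).pj A hA).vol D c - HQ (s.im (lbS x).pj A hA) c) (z : Fin (d + 1)) {ε : ℝ} (hε : 0 < ε) :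
    Typ (S := (lbS x).sp) (fun k (ω : (x k).l.T.Ω) =>
      Jz s.Q z k ((x k).l.p.π ω) ((x k).g ω) ≤ 2 ^ (2 * (1 - δ + ε) * (S.F k).n)) := by
  set G : ∀ k, ((lbS x).sp.F k).Ω → Prop := fun k (ω : (x k).l.T.Ω) =>
      Jz s.Q z k ((x k).l.p.π ω) ((x k).g ω) ≤ 2 ^ (2 * (1 - δ + ε) * (S.F k).n) with hG
  by_contra hcon
  have h2 : 0 < ul ((lbS x).sp.pr fun k ω => ¬ G k ω) := by
    rw [ul_pr_compl]
    have h3 : ul ((lbS x).sp.pr G) ≤ 1 :=
      ul_le_const (Sp.UB_pr G) (Eventually.of_forall fun k => Sp.pr_le_one G k)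
    rcases h3.lt_or_eq with h4 | h4
    · linarith
    · exfalso
      apply hcon
      rw [Sp.Typ_iff, ← h4]
      exact ul_tendsto (Sp.UB_pr G)
  have h3 := hx.re (fun k ω => ¬ G k ω) h2
  have h4 := def_le hD hst h0 h1 h3 z
  have h5 := hδ _ h2
  have h6 : 1 - δ + ε ≤ zx (s.im (lbS x).pj (fun k ω => ¬ G k ω) h2).Q z (reS x fun k ω => ¬ G k ω) := by
    refine zx_ge h3.1.1 z ?_
    have hpos : ∀ᶠ k in UF, 0 < (lbS x).sp.pr (fun k ω => ¬ G k ω) k := eventually_gt_of_lt_ul (Sp.UB_pr _) h2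
    filter_upwards [hpos] with k hk ω hω
    have h7 := ((x k).l.T.rest_supp (fun ω => ¬ G k ω) ω hω).2
    exact (not_le.1 (h7 hk.ne')).le
  linarith

end

end Pool.Agent.Helper61.SEL
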