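import Pool.Agent.Helper89.RAT.Fz

/-! # A form which dominates its derivatives at the scale `B`: sizes and gradients at the resolutions `r ≤ R ≤ 1 / B` are
comparable -/

set_option autoImplicit false

namespace Pool.Agent.Helper61.SEL

open Finset Filter Topology Matrix Pool.Agent.Helper69.RK Pool.Agent.Helper31.EC Pool.Agent.Helper40.EL
open Pool.Agent.Helper89.LX Pool.Agent.Helper3.LF Pool.Agent.Helper84.MT Pool.Agent.Helper89.RAT
open Pool.Agent.Helper95.LF (PdM)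
open Pool.Agent.Helper48.NS (Tm dd_eq)

noncomputable section

variable {N D : ℕ}

/-- GRONWALL in all directions -/
theorem gro_all (A : Matrix (Mon N D) (Mon N D) ℝ) (hA : PdM A) {B : ℝ} (hB : 0 ≤ B)
    (hT : ∀ z v, qf A (Tm z *ᵥ v) ≤ B ^ 2 * qf A v) (T : Matrix (Mon N D) (Mon N D) ℝ)
    (hTc : ∀ z, T * Tm z = Tm z * T) (p p' : Fin N → ℝ) (h : ∀ z, |p' z - p z| * B ≤ 1) :
    qf A (T *ᵥ vv p') ≤ 9 ^ N * qf A (T *ᵥ vv p) := by
  have key : ∀ s : Finset (Fin N), qf A (T *ᵥ vv (fun z => if z ∈ s then p' z else p z)) ≤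
      9 ^ s.card * qf A (T *ᵥ vv p) := by
    intro s
    induction s using Finset.induction_on with
    | empty => simp
    | insert z s hz ih =>
      have e1 : (fun a => if a ∈ insert z s then p' a else p a) =
          upz z (fun a => if a ∈ s then p' a else p a) (p' z - p z) := by
        funext a
        unfold upz
        by_cases ha : a = z
        · subst ha
          simp [hz]
        · by_cases h2 : a ∈ s
          · simp [ha, h2]
          · simp [ha, h2]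
      rw [e1, Finset.card_insert_of_notMem hz, pow_succ]
      have h3 := gro1 A hA z hB (hT z) T (hTc z) (fun a => if a ∈ s then p' a else p a) (h z)
      calc _ ≤ 9 * qf A (T *ᵥ vv (fun a => if a ∈ s then p' a else p a)) := h3
        _ ≤ 9 * (9 ^ s.card * qf A (T *ᵥ vv p)) := mul_le_mul_of_nonneg_left ih (by norm_num)
        _ = _ := by ring
  have h1 := key Finset.univ
  simpa using h1

/-- nodes of two cells -/
theorem nodp_dist (p : Fin N → ℝ) {r R B : ℝ} (h0 : 0 ≤ r) (h1 : r ≤ R) (hB : 0 ≤ B) (h2 : R * B ≤ 1)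
    (j : Fin N → Fin (D + 1)) (z : Fin N) : |nodp D p R j z - nodp D p r j z| * B ≤ 1 := by
  have a1 : nodp D p R j z - nodp D p r j z = (R - r) * nod D (j z) := by
    unfold nodp
    ring
  have a2 : 0 ≤ nod D (j z) := nod_nonneg D (j z)
  have a3 : nod D (j z) ≤ 1 := nod_le D (j z) (Nat.lt_succ_iff.1 (j z).2)
  rw [a1, abs_of_nonneg (mul_nonneg (by linarith) a2)]
  refine le_trans (mul_le_mul_of_nonneg_right ?_ hB) h2
  calc (R - r) * nod D (j z) ≤ (R - r) * 1 := mul_le_mul_of_nonneg_left a3 (by linarith)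
    _ ≤ R := by linarith

variable (A : Matrix (Mon N D) (Mon N D) ℝ) (hA : PdM A) {B : ℝ} (hB : 0 ≤ B)
  (hT : ∀ z v, qf A (Tm z *ᵥ v) ≤ B ^ 2 * qf A v) (p : Fin N → ℝ) {r R : ℝ} (h0 : 0 ≤ r) (h1 : r ≤ R)
  (h2 : R * B ≤ 1)

include hA hB hT h0 h1 h2

/-- SIZES -/
theorem phi_wide : phi R A p ≤ 9 ^ N * phi r A p := by
  unfold phi
  rw [Finset.mul_sum]
  refine Finset.sum_le_sum fun j _ => ?_
  have h3 := gro_all A hA hB hT 1 (fun z => by rw [one_mul, mul_one]) (nodp D p r j) (nodp D p R j)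
    (nodp_dist p h0 h1 hB h2 j)
  rw [Matrix.one_mulVec, Matrix.one_mulVec] at h3
  exact h3

/-- GRADIENTS, from the coarse to the fine resolution -/
theorem Jq_wide (e : Fin N → ℝ) : e ⬝ᵥ (Jq R A p *ᵥ e) ≤ 9 ^ N * (e ⬝ᵥ (Jq r A p *ᵥ e)) := by
  rw [Jq_qf, Jq_qf, Finset.mul_sum]
  refine Finset.sum_le_sum fun j _ => ?_
  rw [Wq_Te, Wq_Te]
  exact gro_all A hA hB hT (Te e) (Te_comm e) (nodp D p r j) (nodp D p R j) (nodp_dist p h0 h1 hB h2 j)

/-- GRADIENTS, from the fine to the coarse resolution -/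
theorem Jq_wide' (e : Fin N → ℝ) : e ⬝ᵥ (Jq r A p *ᵥ e) ≤ 9 ^ N * (e ⬝ᵥ (Jq R A p *ᵥ e)) := by
  rw [Jq_qf, Jq_qf, Finset.mul_sum]
  refine Finset.sum_le_sum fun j _ => ?_
  rw [Wq_Te, Wq_Te]
  refine gro_all A hA hB hT (Te e) (Te_comm e) (nodp D p R j) (nodp D p r j) fun z => ?_
  rw [abs_sub_comm]
  exact nodp_dist p h0 h1 hB h2 j z

/-- DETERMINANTS, from the fine to the coarse resolution -/
theorem GQ_wide : GQ r A p ≤ (9 ^ N) ^ N * GQ R A p :=
  GQ_le_of R r A A hA.1 hA.nonneg hA.1 hA.nonneg p p (9 ^ N) (one_le_pow₀ (by norm_num))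
    (Jq_wide' A hA hB hT p h0 h1 h2)

/-- DETERMINANTS, from the coarse to the fine resolution -/
theorem GQ_wide' : GQ R A p ≤ (9 ^ N) ^ N * GQ r A p :=
  GQ_le_of r R A A hA.1 hA.nonneg hA.1 hA.nonneg p p (9 ^ N) (one_le_pow₀ (by norm_num))
    (Jq_wide A hA hB hT p h0 h1 h2)

end

end Pool.Agent.Helper61.SEL
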