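import Mathlib

/-! # The measure of a monotone function: intervals and a typical point of a defect -/

set_option autoImplicit false

namespace Pool.Agent.Helper61.SEL

open MeasureTheory Set Filter Topology Metric Function
open scoped ENNReal NNReal

noncomputable section

/-- the measure of a monotone function -/
def ms {U : ℝ → ℝ} (hU : Monotone U) : Measure ℝ := hU.stieltjesFunction.measure

theorem st_leftLim {U : ℝ → ℝ} (hU : Monotone U) (x : ℝ) : leftLim hU.stieltjesFunction x = leftLim U x :=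
  leftLim_rightLim (hU.tendsto_leftLim x)

theorem ms_Icc {U : ℝ → ℝ} (hU : Monotone U) (s t : ℝ) :
    ms hU (Icc s t) = ENNReal.ofReal (rightLim U t - leftLim U s) := by
  unfold ms
  rw [StieltjesFunction.measure_Icc, st_leftLim]
  rfl

theorem ms_Ioo {U : ℝ → ℝ} (hU : Monotone U) (s t : ℝ) :
    ms hU (Ioo s t) = ENNReal.ofReal (leftLim U t - rightLim U s) := by
  unfold ms
  rw [StieltjesFunction.measure_Ioo, st_leftLim]
  rfl

theorem ms_singleton {U : ℝ → ℝ} (hU : Monotone U) (t : ℝ) :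
    ms hU {t} = ENNReal.ofReal (rightLim U t - leftLim U t) := by
  unfold ms
  rw [StieltjesFunction.measure_singleton, st_leftLim]
  rfl

theorem ms_Icc_ge {U : ℝ → ℝ} (hU : Monotone U) (s t : ℝ) : ENNReal.ofReal (U t - U s) ≤ ms hU (Icc s t) := by
  rw [ms_Icc]
  apply ENNReal.ofReal_le_ofReal
  have h1 := hU.le_rightLim (le_refl t)
  have h2 := hU.leftLim_le (le_refl s)
  linarith

theorem ms_Ioo_le {U : ℝ → ℝ} (hU : Monotone U) (s t : ℝ) : ms hU (Ioo s t) ≤ ENNReal.ofReal (U t - U s) := by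
  rw [ms_Ioo]
  apply ENNReal.ofReal_le_ofReal
  have h1 := hU.leftLim_le (le_refl t)
  have h2 := hU.le_rightLim (le_refl s)
  linarith

theorem ms_fin {U : ℝ → ℝ} (hU : Monotone U) {C : ℝ} (h : ∀ x, |U x| ≤ C) : IsFiniteMeasure (ms hU) := by
  refine StieltjesFunction.isFiniteMeasure_of_forall_abs_le _ (C := C) fun x => ?_
  have h1 : U x ≤ rightLim U x := hU.le_rightLim (le_refl x)
  have h2 : rightLim U x ≤ U (x + 1) := hU.rightLim_le (by linarith)
  have h3 := abs_le.1 (h x)
  have h4 := abs_le.1 (h (x + 1))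
  show |rightLim U x| ≤ C
  rw [abs_le]
  constructor <;> linarith

/-- outside an interval where the function is constant there is no mass -/
theorem ms_Ioi {U : ℝ → ℝ} (hU : Monotone U) {b : ℝ} (h : ∀ x, b ≤ x → U x = U b) : ms hU (Ioi b) = 0 := by
  have h1 : Ioi b = ⋃ n : ℕ, Ioo b (b + n) := by
    ext x
    simp only [mem_Ioi, mem_iUnion, mem_Ioo]
    constructor
    · intro hx
      obtain ⟨n, hn⟩ := exists_nat_gt (x - b)
      exact ⟨n, hx, by linarith⟩
    · rintro ⟨n, hx, -⟩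
      exact hx
  rw [h1]
  refine measure_iUnion_null fun n => le_antisymm ?_ zero_le
  refine (ms_Ioo_le hU b (b + n)).trans ?_
  rw [h (b + n) (by linarith [(Nat.cast_nonneg n : (0 : ℝ) ≤ n)]), sub_self, ENNReal.ofReal_zero]

theorem ms_Iio {U : ℝ → ℝ} (hU : Monotone U) {a : ℝ} (h : ∀ x, x ≤ a → U x = U a) : ms hU (Iio a) = 0 := by
  have h1 : Iio a = ⋃ n : ℕ, Ioo (a - n) a := by
    ext x
    simp only [mem_Iio, mem_iUnion, mem_Ioo]
    constructor
    · intro hx
      obtain ⟨n, hn⟩ := exists_nat_gt (a - x)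
      exact ⟨n, by linarith, hx⟩
    · rintro ⟨n, -, hx⟩
      exact hx
  rw [h1]
  refine measure_iUnion_null fun n => le_antisymm ?_ zero_le
  refine (ms_Ioo_le hU (a - n) a).trans ?_
  rw [h (a - n) (by linarith [(Nat.cast_nonneg n : (0 : ℝ) ≤ n)]), sub_self, ENNReal.ofReal_zero]

/-- the total mass of a function which is constant outside an interval -/
theorem ms_univ {U : ℝ → ℝ} (hU : Monotone U) {a b : ℝ} (ha : ∀ x, x ≤ a → U x = U a)
    (hb : ∀ x, b ≤ x → U x = U b) : ms hU univ = ENNReal.ofReal (U b - U a) := by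
  apply le_antisymm
  · have h1 : (univ : Set ℝ) ⊆ Iio a ∪ (Ioo (a - 1) (b + 1) ∪ Ioi b) := by
      intro x _
      rcases lt_or_ge x a with h | h
      · exact Or.inl h
      · rcases le_or_gt x b with h' | h'
        · exact Or.inr (Or.inl ⟨by linarith, by linarith⟩)
        · exact Or.inr (Or.inr h')
    refine (measure_mono h1).trans ?_
    refine (measure_union_le _ _).trans ?_
    rw [ms_Iio hU ha, zero_add]
    refine (measure_union_le _ _).trans ?_
    rw [ms_Ioi hU hb, add_zero]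
    refine (ms_Ioo_le hU _ _).trans ?_
    rw [ha (a - 1) (by linarith), hb (b + 1) (by linarith)]
  · exact (ms_Icc_ge hU a b).trans (measure_mono (subset_univ _))

/-- a point where one measure has density less than `1` with respect to the other: the density set has positive measure -/
theorem exists_low {μ ν : Measure ℝ} [IsFiniteMeasure μ] [IsFiniteMeasure ν] (h : ν univ < μ univ) :
    ∃ θ : ℝ≥0, θ < 1 ∧ μ {x | ν.rnDeriv μ x ≤ θ} ≠ 0 := by
  by_contra hcon
  push Not at hcon
  have h1 : ∀ᵐ x ∂μ, 1 ≤ ν.rnDeriv μ x := by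
    have h2 : ∀ n : ℕ, ∀ᵐ x ∂μ, ¬ ν.rnDeriv μ x ≤ (((n : ℝ≥0) / (n + 1) : ℝ≥0) : ℝ≥0∞) := by
      intro n
      have h3 := hcon ((n : ℝ≥0) / (n + 1)) (by
        rw [div_lt_one (by positivity)]
        exact lt_add_one _)
      rw [ae_iff]
      simpa using h3
    rw [← ae_all_iff] at h2
    filter_upwards [h2] with x hx
    have h4 : Tendsto (fun n : ℕ => (((n : ℝ≥0) / (n + 1) : ℝ≥0) : ℝ≥0∞)) atTop (𝓝 ((1 : ℝ≥0) : ℝ≥0∞)) := by
      apply ENNReal.tendsto_coe.2
      rw [← NNReal.tendsto_coe]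
      push_cast
      exact tendsto_natCast_div_add_atTop 1
    exact le_of_tendsto' h4 fun n => (not_le.1 (hx n)).le
  have h2 : μ univ ≤ ν univ := by
    calc μ univ = ∫⁻ _, 1 ∂μ := by simp
      _ ≤ ∫⁻ x, ν.rnDeriv μ x ∂μ := lintegral_mono_ae h1
      _ ≤ ν univ := Measure.lintegral_rnDeriv_le
  exact absurd h (not_lt.2 h2)

/-- the bound of `ν` near a point of the set where the density is at most `θ` -/
theorem bound_low {μ ν : Measure ℝ} [IsFiniteMeasure μ] [IsFiniteMeasure ν] (θ : ℝ≥0) :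
    ∀ᵐ c ∂μ, ν.rnDeriv μ c ≤ θ → ∀ δ : ℝ≥0, 0 < δ → ∀ᶠ r in 𝓝[>] (0 : ℝ), ∀ E ⊆ closedBall c r, MeasurableSet E →
      ν E ≤ θ * μ E + δ * μ (closedBall c r) := by
  have hgm : Measurable (ν.rnDeriv μ) := Measure.measurable_rnDeriv ν μ
  set A : Set ℝ := {x | ν.rnDeriv μ x ≤ θ} with hA
  have hAm : MeasurableSet A := measurableSet_le hgm measurable_const
  have hhm : Measurable (Aᶜ.indicator (ν.rnDeriv μ)) := hgm.indicator hAm.compl
  have hfin : IsFiniteMeasure (μ.withDensity (Aᶜ.indicator (ν.rnDeriv μ))) := by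
    refine isFiniteMeasure_withDensity (ne_of_lt (lt_of_le_of_lt ?_ (measure_lt_top ν univ)))
    exact (lintegral_mono (indicator_le_self _ _)).trans Measure.lintegral_rnDeriv_le
  have q1 := Besicovitch.ae_tendsto_rnDeriv (ν.singularPart μ) μ
  have q2 := Besicovitch.ae_tendsto_rnDeriv (μ.withDensity (Aᶜ.indicator (ν.rnDeriv μ))) μ
  have q3 := Measure.rnDeriv_singularPart ν μ
  have q4 := Measure.rnDeriv_withDensity μ hhm
  have q5 := Besicovitch.ae_tendsto_measure_inter_div_of_measurableSet μ MeasurableSet.univ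
  filter_upwards [q1, q2, q3, q4, q5] with c c1 c2 c3 c4 c5 hc δ hδ
  have hcA : c ∈ A := hc
  rw [c3] at c1
  rw [c4, indicator_of_notMem (by simpa using hcA)] at c2
  have c12 := c1.add c2
  simp only [Pi.zero_apply, add_zero] at c12
  have hev : ∀ᶠ r in 𝓝[>] (0 : ℝ), μ (closedBall c r) ≠ 0 := by
    rw [indicator_of_mem (mem_univ c), Pi.one_apply] at c5
    have h1 : ∀ᶠ r in 𝓝[>] (0 : ℝ), (0 : ℝ≥0∞) < μ (univ ∩ closedBall c r) / μ (closedBall c r) :=
      c5.eventually (lt_mem_nhds one_pos)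
    filter_upwards [h1] with r hr h0
    rw [univ_inter, h0, ENNReal.zero_div] at hr
    exact lt_irrefl _ hr
  have h2 := c12.eventually (gt_mem_nhds (show (0 : ℝ≥0∞) < δ by exact_mod_cast hδ))
  filter_upwards [hev, h2] with r hr0 hr E hE hEm
  have hB : μ (closedBall c r) ≠ ∞ := measure_ne_top _ _
  rw [← ENNReal.add_div, ENNReal.div_lt_iff (Or.inl hr0) (Or.inl hB)] at hr
  have hdec : ν E = ν.singularPart μ E + ∫⁻ x in E, ν.rnDeriv μ x ∂μ := by
    conv_lhs => rw [Measure.haveLebesgueDecomposition_add ν μ]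
    rw [Measure.add_apply, withDensity_apply _ hEm]
  have hsp : ∫⁻ x in E, ν.rnDeriv μ x ∂μ ≤ θ * μ E + μ.withDensity (Aᶜ.indicator (ν.rnDeriv μ)) E := by
    rw [withDensity_apply _ hEm]
    calc ∫⁻ x in E, ν.rnDeriv μ x ∂μ ≤ ∫⁻ x in E, (θ + Aᶜ.indicator (ν.rnDeriv μ) x) ∂μ := by
          refine lintegral_mono fun x => ?_
          by_cases hx : x ∈ A
          · exact le_add_right hx
          · rw [indicator_of_mem (show x ∈ Aᶜ from hx)]
            exact le_add_self
      _ = θ * μ E + ∫⁻ x in E, Aᶜ.indicator (ν.rnDeriv μ) x ∂μ := by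
          rw [lintegral_add_left measurable_const, setLIntegral_const]
  calc ν E = ν.singularPart μ E + ∫⁻ x in E, ν.rnDeriv μ x ∂μ := hdec
    _ ≤ ν.singularPart μ (closedBall c r) + (θ * μ E + μ.withDensity (Aᶜ.indicator (ν.rnDeriv μ)) (closedBall c r)) :=
        add_le_add (measure_mono hE) (hsp.trans (add_le_add le_rfl (measure_mono hE)))
    _ = θ * μ E + (ν.singularPart μ (closedBall c r) +
          μ.withDensity (Aᶜ.indicator (ν.rnDeriv μ)) (closedBall c r)) := by ring
    _ ≤ θ * μ E + δ * μ (closedBall c r) := add_le_add le_rfl hr.le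

end

end Pool.Agent.Helper61.SEL
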