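import Pool.Agent.Helper61.SEL.Ms

/-! # Two monotone functions with a defect: a typical point

`first_real` : `u`, `I` monotone on `[0, 1]`, `I 1 - I 0 < u 1 - u 0`: a point of differentiability, a point of the
singular continuous part of `du`, or an atom, with `dI ≤ θ du`, `θ < 1`. -/

set_option autoImplicit false

namespace Pool.Agent.Helper61.SEL

open MeasureTheory Set Filter Topology Metric Function
open scoped ENNReal NNReal

noncomputable section

variable {U J : ℝ → ℝ} (hU : Monotone U) (hJ : Monotone J)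

/-- the atoms -/
def At (U : ℝ → ℝ) : Set ℝ := {x | ¬ ContinuousAt U x}

include hU in
theorem At_cnt : (At U).Countable := hU.countable_not_continuousAt

theorem At_iff (x : ℝ) : x ∈ At U ↔ ms hU {x} ≠ 0 := by
  unfold At
  rw [mem_ofPred_eq, hU.continuousAt_iff_leftLim_eq_rightLim, ms_singleton, ne_eq, ENNReal.ofReal_eq_zero, not_le, sub_pos]
  constructor
  · intro h
    exact lt_of_le_of_ne (hU.leftLim_le_rightLim (le_refl x)) h
  · intro h
    exact ne_of_lt h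

theorem exists_of_ae {μ : Measure ℝ} {P : ℝ → Prop} {A : Set ℝ} (h : ∀ᵐ x ∂μ, P x) (hA : μ A ≠ 0) : ∃ x ∈ A, P x := by
  by_contra hcon
  push Not at hcon
  exact hA (measure_mono_null (fun x hx => hcon x hx) (ae_iff.1 h))

/-- what is known at the point `c` -/
structure Tp (P : ℝ → Prop) (α β : ℝ) (θ : ℝ≥0) (c : ℝ) : Prop where
  mem : c ∈ Icc α β
  low : ∀ δ : ℝ≥0, 0 < δ → ∀ᶠ r in 𝓝[>] (0 : ℝ), ∀ E ⊆ closedBall c r, MeasurableSet E →
      ms hJ E ≤ θ * ms hU E + δ * ms hU (closedBall c r)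
  pos : ∀ᶠ r in 𝓝[>] (0 : ℝ), ms hU (closedBall c r) ≠ 0
  vol : ∃ p : ℝ≥0∞, p < ∞ ∧ Tendsto (fun r => volume (closedBall c r) / ms hU (closedBall c r)) (𝓝[>] 0) (𝓝 p) ∧
    (p ≠ 0 → DifferentiableAt ℝ U c ∧ DifferentiableAt ℝ J c ∧ P c)
  at' : ms hU {c} = 0 → c ≠ α ∧ c ≠ β ∧
    Tendsto (fun r => ms hU (At U ∩ closedBall c r) / ms hU (closedBall c r)) (𝓝[>] 0) (𝓝 0)

theorem exists_tp {P : ℝ → Prop} (hP : ∀ᵐ x, P x) {α β : ℝ} (hαβ : α ≤ β) (u0 : ∀ x, x ≤ α → U x = U α)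
    (u1 : ∀ x, β ≤ x → U x = U β) (j0 : ∀ x, x ≤ α → J x = J α)
    (j1 : ∀ x, β ≤ x → J x = J β) (hd : J β - J α < U β - U α) : ∃ θ : ℝ≥0, θ < 1 ∧ ∃ c, Tp hU hJ P α β θ c := by
  have hbd : ∀ {V : ℝ → ℝ}, Monotone V → (∀ x, x ≤ α → V x = V α) → (∀ x, β ≤ x → V x = V β) →
      ∀ x, |V x| ≤ |V α| + |V β| := by
    intro V hV v0 v1 x
    have h1 : V α ≤ V x := by
      rcases le_total x α with h | h
      · rw [v0 x h]
      · exact hV h
    have h2 : V x ≤ V β := by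
      rcases le_total β x with h | h
      · rw [v1 x h]
      · exact hV h
    rw [abs_le]
    constructor
    · linarith [neg_abs_le (V α), abs_nonneg (V β)]
    · linarith [le_abs_self (V β), abs_nonneg (V α)]
  have := ms_fin hU (hbd hU u0 u1)
  have := ms_fin hJ (hbd hJ j0 j1)
  have htot : ms hJ univ < ms hU univ := by
    rw [ms_univ hU u0 u1, ms_univ hJ j0 j1]
    have h1 : 0 ≤ J β - J α := sub_nonneg.2 (hJ hαβ)
    exact (ENNReal.ofReal_lt_ofReal_iff (by linarith)).2 hd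
  obtain ⟨θ, hθ, hA⟩ := exists_low htot
  refine ⟨θ, hθ, ?_⟩
  have hAtm : MeasurableSet (At U) := (At_cnt hU).measurableSet
  have q1 := bound_low (μ := ms hU) (ν := ms hJ) θ
  have q2 := Besicovitch.ae_tendsto_rnDeriv volume (ms hU)
  have q3 := Besicovitch.ae_tendsto_measure_inter_div_of_measurableSet (ms hU) hAtm
  have q4 := Besicovitch.ae_tendsto_measure_inter_div_of_measurableSet (ms hU) MeasurableSet.univ
  have q5 : ∀ᵐ x ∂(ms hU), volume.rnDeriv (ms hU) x < ∞ := Measure.rnDeriv_lt_top volume (ms hU)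
  have q6 : ∀ᵐ x ∂(ms hU), x ∈ Icc α β := by
    have h1 : (Icc α β)ᶜ ⊆ Iio α ∪ Ioi β := by
      intro x hx
      rw [mem_compl_iff, mem_Icc, not_and_or, not_le, not_le] at hx
      exact hx
    rw [ae_iff]
    refine measure_mono_null h1 ?_
    rw [measure_union_null_iff]
    exact ⟨ms_Iio hU u0, ms_Ioi hU u1⟩
  have q7 : ∀ x₀ : ℝ, ∀ᵐ x ∂(ms hU), ms hU {x} = 0 → x ≠ x₀ := by
    intro x₀
    by_cases h : ms hU {x₀} = 0
    · have h1 : ∀ᵐ x ∂(ms hU), x ∉ ({x₀} : Set ℝ) := measure_eq_zero_iff_ae_notMem.1 h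
      filter_upwards [h1] with x hx _ hxx
      exact hx hxx
    · filter_upwards with x hx hxx
      rw [hxx] at hx
      exact h hx
  have q8 : ∀ᵐ x ∂(ms hU), volume.rnDeriv (ms hU) x ≠ 0 →
      DifferentiableAt ℝ U x ∧ DifferentiableAt ℝ J x ∧ P x := by
    have h1 : ∀ᵐ x, DifferentiableAt ℝ U x ∧ DifferentiableAt ℝ J x ∧ P x := by
      filter_upwards [hU.ae_differentiableAt, hJ.ae_differentiableAt, hP] with x hx hx' hx''
      exact ⟨hx, hx', hx''⟩
    have h2 : (ms hU).withDensity (volume.rnDeriv (ms hU)) ≪ volume :=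
      (Measure.withDensity_rnDeriv_le volume (ms hU)).absolutelyContinuous
    have h3 := h2.ae_le h1
    have h4 := (ae_withDensity_iff (Measure.measurable_rnDeriv volume (ms hU))).1 h3
    exact h4
  obtain ⟨c, hcA, hc⟩ := exists_of_ae
    (q1.and (q2.and (q3.and (q4.and (q5.and (q6.and ((q7 α).and ((q7 β).and q8)))))))) hA
  obtain ⟨c1, c2, c3, c4, c5, c6, c7, c8, c9⟩ := hc
  refine ⟨c, c6, c1 hcA, ?_, ⟨_, c5, c2, c9⟩, fun h => ⟨c7 h, c8 h, ?_⟩⟩
  · rw [indicator_of_mem (mem_univ c), Pi.one_apply] at c4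
    have h1 : ∀ᶠ r in 𝓝[>] (0 : ℝ), (0 : ℝ≥0∞) < ms hU (univ ∩ closedBall c r) / ms hU (closedBall c r) :=
      c4.eventually (lt_mem_nhds one_pos)
    filter_upwards [h1] with r hr h0
    rw [univ_inter, h0, ENNReal.zero_div] at hr
    exact lt_irrefl _ hr
  · rwa [indicator_of_notMem (fun h' => (At_iff hU c).1 h' h)] at c3

end

end Pool.Agent.Helper61.SEL
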