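import Pool.Agent.Helper61.SEL.Gro
import Pool.Agent.Helper61.SEL.Exh
import Pool.Agent.Helper81.MT.Trn
import Pool.Agent.Helper26.MT.Zo
import Pool.Agent.Helper7.RD.Kv

/-! # RESOLUTIONS above the top exponent do not lose codimension

`trn_geC` : `x` a form which dominates its derivatives (optimal forms of all classes), whose gradients are typically at
most `2 ^ ((t + ε) n)`, and `t < ρ`. Then the same form is a form of the point measured at the resolution `ρ`, with at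
least the same (unnormalized) codimension. All classes of labels. -/

set_option autoImplicit false

namespace Pool.Agent.Helper61.SEL

open Finset Filter Topology Matrix Pool.Agent.Helper69.RK Pool.Agent.Helper31.EC Pool.Agent.Helper31.EC.Sp
open Pool.Agent.Helper40.EL Pool.Agent.Helper89.LX Pool.Agent.Helper3.LF Pool.Agent.Helper84.MT Pool.Agent.Helper89.RAT
open Pool.Agent.Helper26.MZ
open Pool.Agent.Helper36.AM (HQ HQ_eq volO)
open Pool.Agent.Helper95.LF (PdM)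
open Pool.Agent.Helper48.NS (Tm)
open Pool.Agent.Helper3.PR (cutm cutm_cpd cutFD cut_typ)
open Pool.Agent.Helper42.NS (osp osp_dl)
open Pool.Agent.Helper14.MC (gx vx vol_eq vx_UB vx_nonneg vol_opt_le adf_sub gexq gexq_bd gexq_nonneg adf_cap oQ osp_n)
open Pool.Agent.Helper52.SL (tnF tnL untL nul_trn)
open Pool.Agent.Helper7.RD (volC volCO volC_le_of volC_eq)

noncomputable section

/-- finite intersections of typical events -/
theorem typ_all {S : Sp} {κ : Type} [Finite κ] (B : κ → ∀ k, (S.F k).Ω → Prop) (h : ∀ j, Typ (B j)) :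
    Typ (fun k ω => ∀ j, B j k ω) := by
  classical
  cases nonempty_fintype κ
  have h1 : ∀ s : Finset κ, Typ (fun k ω => ∀ j ∈ s, B j k ω) := by
    intro s
    induction s using Finset.induction_on with
    | empty =>
      refine (Typ_true (S := S)).mono (Eventually.of_forall fun k ω _ _ j hj => ?_)
      exact absurd hj (Finset.notMem_empty j)
    | insert a s ha ih =>
      refine ((h a).and ih).mono (Eventually.of_forall fun k ω _ hh j hj => ?_)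
      rcases Finset.mem_insert.1 hj with h2 | h2
      · rw [h2]
        exact hh.1
      · exact hh.2 j h2
  refine (h1 Finset.univ).mono (Eventually.of_forall fun k ω _ hh j => hh j (Finset.mem_univ j))

variable {S : Sp} {M D : ℕ} {E : ℕ → ℕ} {ι : Type}

/-- the gradients of the form are typically at most `2 ^ ((t + ε) n)` -/
def GrLe (Q : S.VV M) (x : ∀ k, FD (S.F k) (Mon M D)) (t : ℝ) : Prop :=
  ∀ z : Fin M, ∀ ε : ℝ, 0 < ε → Typ (S := (lb x).sp) (fun k (ω : (x k).l.T.Ω) =>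
    Jz Q z k ((x k).l.p.π ω) ((x k).g ω) ≤ 2 ^ (2 * (t + ε) * (S.F k).n))

/-- the form dominates its derivatives at the scale of its gradients -/
def DmZ (Q : S.VV M) (x : ∀ k, FD (S.F k) (Mon M D)) : Prop :=
  ∀ z : Fin M, ∀ ε : ℝ, 0 < ε → Tendsto (fun k => (x k).l.T.pb (fun ω => ¬ ∀ v, qf ((x k).g ω) (Tm z *ᵥ v) ≤
    2 ^ (ε * (S.F k).n) * Jz Q z k ((x k).l.p.π ω) ((x k).g ω) * qf ((x k).g ω) v)) UF (𝓝 0)

/-- optimal forms dominate their derivatives -/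
theorem dmZ_opt {κ : Type} {A : κ → Part S} {Q : S.VV M} {x : ∀ k, FD (S.F k) (Mon M D)} (hx : (gaq Q D).Optf A x) :
    DmZ Q x := fun z ε hε => dom_z Q z hx ε hε

/-- the good event -/
theorem good {κ : Type} {A : κ → Part S} {Q : S.VV M} {x : ∀ k, FD (S.F k) (Mon M D)} (hx : (gaq Q D).Adf A x)
    (hd : DmZ Q x) {t ρ : ℝ} (ht : t < ρ) (hG : GrLe Q x t) : ∃ B : ℕ → ℝ, (∀ k, 0 ≤ B k) ∧ (∀ k, S.dl ρ k * B k ≤ 1) ∧
      Typ (S := (lb x).sp) (fun k (ω : (x k).l.T.Ω) => ∀ z v, qf ((x k).g ω) (Tm z *ᵥ v) ≤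
        B k ^ 2 * qf ((x k).g ω) v) := by
  set ε : ℝ := (ρ - t) / 4 with hε
  have hε0 : 0 < ε := by rw [hε]; linarith
  refine ⟨fun k => 2 ^ ((t + 2 * ε) * (S.F k).n), fun k => by positivity, fun k => ?_, ?_⟩
  · have hn := (S.F k).pos
    unfold Sp.dl
    rw [← Real.rpow_add (by norm_num)]
    have h1 : -(ρ * (S.F k).n) + (t + 2 * ε) * (S.F k).n = -(2 * ε * (S.F k).n) := by
      rw [hε]
      ring
    rw [h1]
    exact Real.rpow_le_one_of_one_le_of_nonpos (by norm_num) (by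
      have : 0 < 2 * ε * (S.F k).n := by positivity
      linarith)
  · have h1 : Typ (S := (lb x).sp) (fun k (ω : (x k).l.T.Ω) => ∀ z,
        Jz Q z k ((x k).l.p.π ω) ((x k).g ω) ≤ 2 ^ (2 * (t + ε) * (S.F k).n)) :=
      typ_all (S := (lb x).sp) (fun (z : Fin M) k (ω : (x k).l.T.Ω) =>
        Jz Q z k ((x k).l.p.π ω) ((x k).g ω) ≤ 2 ^ (2 * (t + ε) * (S.F k).n)) fun z => hG z ε hε0
    have h2 : Typ (S := (lb x).sp) (fun k (ω : (x k).l.T.Ω) => ∀ z v, qf ((x k).g ω) (Tm z *ᵥ v) ≤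
        2 ^ (2 * ε * (S.F k).n) * Jz Q z k ((x k).l.p.π ω) ((x k).g ω) * qf ((x k).g ω) v) :=
      typ_all (S := (lb x).sp) (fun (z : Fin M) k (ω : (x k).l.T.Ω) => ∀ v, qf ((x k).g ω) (Tm z *ᵥ v) ≤
        2 ^ (2 * ε * (S.F k).n) * Jz Q z k ((x k).l.p.π ω) ((x k).g ω) * qf ((x k).g ω) v)
        fun z => hd z (2 * ε) (by linarith)
    refine (h1.and h2).mono ?_
    filter_upwards [hx 1 one_pos] with k hk ω hω hh z v
    have hc := (hk.2.1 ω hω).1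
    have h3 := hh.2 z v
    refine h3.trans ?_
    have h4 : 0 ≤ qf ((x k).g ω) v := hc.psd.2 v
    refine mul_le_mul_of_nonneg_right ?_ h4
    refine (mul_le_mul_of_nonneg_left (hh.1 z) (by positivity)).trans (le_of_eq ?_)
    rw [← Real.rpow_add (by norm_num), ← Real.rpow_natCast, ← Real.rpow_mul (by norm_num)]
    congr 1
    push_cast
    ring

/-- bounds of the exponents of an admissible form -/
theorem gx_bd {κ : Type} {A : κ → Part S} {Q : S.VV M} {y : ∀ k, FD (S.F k) (Mon M D)} (hy : (gaq Q D).Adf A y) :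
    ∃ C : ℝ, 0 ≤ C ∧ ∀ᶠ k in UF, ∀ ω, (y k).l.T.μ ω ≠ 0 →
      0 ≤ gx Q k ((y k).l.p.π ω) ((y k).g ω) ∧ gx Q k ((y k).l.p.π ω) ((y k).g ω) ≤ C := by
  have hbd := gexq_bd (oQ (lb y) Q) _ ((gaq Q D).C + 1) (by linarith [(gaq Q D).C0]) (adf_cap hy)
  have hnn := gexq_nonneg (oQ (lb y) Q) _ _ (adf_cap hy)
  refine ⟨(((gaq Q D).C + 1) + 3) * M, by
    have := (gaq Q D).C0
    positivity, ?_⟩
  filter_upwards [hbd, hnn] with k b1 b2 ω hω
  have f1 : gexq (oQ (lb y) Q) (fun k (ω : (y k).l.T.Ω) => (y k).g ω) k ω =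
      gx Q k ((y k).l.p.π ω) ((y k).g ω) := by
    unfold gexq gx
    rw [osp_dl, osp_n]
    rfl
  have d1 := b1 ω hω
  have d2 := b2 ω hω
  rw [f1] at d1 d2
  exact ⟨d2, d1⟩

/-- **A RESOLUTION above the top exponent does not lose codimension**, all classes of labels -/
theorem trn_geC {κ κ' : Type} [Finite κ'] {A : κ → Part S} {Q : S.VV M} {t ρ : ℝ} (h0 : 0 < ρ) (h1 : ρ ≤ 1)
    (ht : t < ρ) {x : ∀ k, FD (S.F k) (Mon M D)} (hx : (gaq Q D).Adf A x) (hd : DmZ Q x) (hG : GrLe Q x t)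
    {A' : κ' → Part (S.chg S.tr ρ h0)} {C' : LC (S.chg S.tr ρ h0)} (hlb : (tnL ρ h0 (lb x)).DMf A')
    (hCl : C'.ev (tnL ρ h0 (lb x))) :
    M - vol Q D x ≤ ρ * (M - volC C' A' (Q.chg S.tr ρ h0) D) := by
  obtain ⟨B, hB0, hB1, hT⟩ := good hx hd ht hG
  obtain ⟨K, hK, hKT⟩ := adf_sub hx
  have hmeas : ∀ k (ω ω' : ((tnL ρ h0 (lb x)) k).T.Ω), ((tnL ρ h0 (lb x)) k).T.μ ω ≠ 0 →
      ((tnL ρ h0 (lb x)) k).T.μ ω' ≠ 0 → ((tnL ρ h0 (lb x)) k).V ω ω' → ((tnL ρ h0 (lb x)) k).T.Z ω ω' →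
      (x k).g ω = (x k).g ω' := fun k ω ω' a b c d => ((x k).meas ω ω' a b c d).1
  have hge : ∀ᶠ k in UF, ∀ ω, ((tnL ρ h0 (lb x)) k).T.μ ω ≠ 0 →
      ((x k).g ω).IsSymm ∧ ∀ v, v ⬝ᵥ v ≤ qf ((x k).g ω) v := by
    filter_upwards [hx 1 one_pos] with k hk ω hω
    exact ⟨(hk.2.1 ω hω).1.1, (hk.2.1 ω hω).1.2.1⟩
  have hdl : ∀ k, (S.chg S.tr ρ h0).dl 1 k = S.dl ρ k := fun k => by rw [chg_dl, mul_one]
  have hsz : Typ (S := (tnL ρ h0 (lb x)).sp) (fun k (ω : ((tnL ρ h0 (lb x)) k).T.Ω) =>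
      (gaq (Q.chg S.tr ρ h0) D).φ k (((tnL ρ h0 (lb x)) k).p.π ω) ((x k).g ω) ≤ 9 ^ M * K k) := by
    have h2 : Typ (S := (lb x).sp) (fun k (ω : (x k).l.T.Ω) =>
        phi (S.dl ρ k) ((x k).g ω) (Q.v k ((x k).l.p.π ω)) ≤ 9 ^ M * K k) := by
      refine (hT.and hKT).mono ?_
      filter_upwards [hx 1 one_pos] with k hk ω hω hh
      have hc := (hk.2.1 ω hω).1
      refine (phi_wide ((x k).g ω) hc.pdM (hB0 k) hh.1 (Q.v k ((x k).l.p.π ω)) (S.dl_pos 1 k).le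
        (S.dl_anti h1 k) (hB1 k)).trans ?_
      exact mul_le_mul_of_nonneg_left hh.2 (by positivity)
    refine Tendsto.congr (fun k => ?_) h2
    show (x k).l.T.pb (fun ω => ¬ phi (S.dl ρ k) ((x k).g ω) (Q.v k ((x k).l.p.π ω)) ≤ 9 ^ M * K k) =
      (x k).l.T.pb (fun ω => ¬ phi ((S.chg S.tr ρ h0).dl 1 k) ((x k).g ω) (Q.v k ((x k).l.p.π ω)) ≤ 9 ^ M * K k)
    rw [hdl]
  have hKs : (S.chg S.tr ρ h0).Sub (fun k => 9 ^ M * K k) :=
    chg_sub S.tr ρ h0 ((S.Sub_const (show (0 : ℝ) ≤ 9 ^ M by positivity)).mul hK)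
  set y : ∀ k, FD ((S.chg S.tr ρ h0).F k) (Mon M D) :=
    cutFD (gaq (Q.chg S.tr ρ h0) D) (tnL ρ h0 (lb x)) (fun k ω => (x k).g ω) hmeas with hy
  have hyA : (gaq (Q.chg S.tr ρ h0) D).Adf A' y :=
    cut_adf (tnL ρ h0 (lb x)) hlb _ hmeas hge (fun k => 9 ^ M * K k) hKs hsz
  have hcut := cut_typ (Φ := gaq (Q.chg S.tr ρ h0) D) (tnL ρ h0 (lb x)) (fun k ω => (x k).g ω) hge
    (fun k => 9 ^ M * K k) hKs hsz
  have hv : volC C' A' (Q.chg S.tr ρ h0) D ≤ vol (Q.chg S.tr ρ h0) D y := volC_le_of ⟨hyA, hCl⟩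
  have hUx := vx_UB hx
  have hUy := vx_UB hyA
  obtain ⟨C, hC0, hC⟩ := gx_bd hx
  obtain ⟨C', hC0', hC'⟩ := gx_bd hyA
  have hcutg : ∀ k (ω : (x k).l.T.Ω), Cpd ((gaq (Q.chg S.tr ρ h0) D).cp k) ((x k).g ω) →
      (y k).g ω = (x k).g ω := fun k ω h => if_pos h
  have e2 : (fun k => ∑ ω : (x k).l.T.Ω, (x k).l.T.μ ω *
      (ρ * gx (Q.chg S.tr ρ h0) k ((x k).l.p.π ω) ((y k).g ω))) = fun k => ρ * vx (Q.chg S.tr ρ h0) y k := by
    funext k
    show _ = ρ * ∑ ω : (x k).l.T.Ω, (x k).l.T.μ ω * gx (Q.chg S.tr ρ h0) k ((x k).l.p.π ω) ((y k).g ω)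
    rw [Finset.mul_sum]
    exact Finset.sum_congr rfl fun ω _ => by ring
  have hE : Tendsto (fun k => (x k).l.T.pb (fun ω => ¬ ((∀ z v, qf ((x k).g ω) (Tm z *ᵥ v) ≤
      B k ^ 2 * qf ((x k).g ω) v) ∧ Cpd ((gaq (Q.chg S.tr ρ h0) D).cp k) ((x k).g ω)))) UF (𝓝 0) := by
    have h2 : Typ (S := (lb x).sp) (fun k (ω : (x k).l.T.Ω) =>
        Cpd ((gaq (Q.chg S.tr ρ h0) D).cp k) ((x k).g ω)) := hcut
    exact hT.and h2
  have key := ul_avg_le (fun k => (x k).l.T)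
    (fun k ω => ρ * gx (Q.chg S.tr ρ h0) k ((x k).l.p.π ω) ((y k).g ω))
    (fun k ω => gx Q k ((x k).l.p.π ω) ((x k).g ω))
    (fun k ω => (∀ z v, qf ((x k).g ω) (Tm z *ᵥ v) ≤ B k ^ 2 * qf ((x k).g ω) v) ∧
      Cpd ((gaq (Q.chg S.tr ρ h0) D).cp k) ((x k).g ω))
    (fun k => (Real.logb 2 ((9 ^ M) ^ M) / 2) / (S.F k).n) (S.div_n_tendsto _) C hE (by
      filter_upwards [hx 1 one_pos] with k hk ω hω hh
      have hc := (hk.2.1 ω hω).1
      have hn := (S.F k).pos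
      rw [hcutg k ω hh.2]
      have a1 := GQ_wide ((x k).g ω) hc.pdM (hB0 k) hh.1 (Q.v k ((x k).l.p.π ω)) (S.dl_pos 1 k).le
        (S.dl_anti h1 k) (hB1 k)
      have a2 := one_le_GQ (S.dl 1 k) hc.1 hc.psd.2 (Q.v k ((x k).l.p.π ω))
      have a3 := one_le_GQ (S.dl ρ k) hc.1 hc.psd.2 (Q.v k ((x k).l.p.π ω))
      have a4 := Real.logb_le_logb_of_le (b := 2) (by norm_num) (by linarith) a1
      rw [Real.logb_mul (by positivity) (by linarith)] at a4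
      show Real.logb 2 (GQ (S.dl 1 k) ((x k).g ω) (Q.v k ((x k).l.p.π ω))) / (2 * (S.F k).n) ≤
        ρ * (Real.logb 2 (GQ ((S.chg S.tr ρ h0).dl 1 k) ((x k).g ω) (Q.v k ((x k).l.p.π ω))) /
          (2 * (ρ * (S.F k).n))) + (Real.logb 2 ((9 ^ M) ^ M) / 2) / (S.F k).n
      rw [hdl]
      have e3 : ρ * (Real.logb 2 (GQ (S.dl ρ k) ((x k).g ω) (Q.v k ((x k).l.p.π ω))) /
          (2 * (ρ * (S.F k).n))) + (Real.logb 2 ((9 ^ M) ^ M) / 2) / (S.F k).n =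
          (Real.logb 2 ((9 ^ M) ^ M) + Real.logb 2 (GQ (S.dl ρ k) ((x k).g ω) (Q.v k ((x k).l.p.π ω)))) /
            (2 * (S.F k).n) := by
        field_simp
        ring
      rw [e3]
      exact div_le_div_of_nonneg_right a4 (by positivity)) (by
      filter_upwards [hC] with k hk ω hω
      exact (hk ω hω).2) (by
      filter_upwards [hC'] with k hk ω hω
      exact mul_nonneg h0.le (hk ω hω).1) hUx (by rw [e2]; exact hUy.const_mul ρ)
  rw [e2, ul_const_mul _ hUy] at key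
  have k1 : M - vol Q D x = ul (vx Q x) := by rw [vol_eq]; ring
  have k2 : ul (vx (Q.chg S.tr ρ h0) y) = M - vol (Q.chg S.tr ρ h0) D y := by rw [vol_eq]; ring
  rw [k1]
  refine key.trans (mul_le_mul_of_nonneg_left ?_ h0.le)
  rw [k2]
  linarith

end

end Pool.Agent.Helper61.SEL
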